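import Mathlib

/-!
Circular flows and effective resistance: common definitions.
A finite multigraph is given by vertex type `V`, edge type `E` and end maps `s t : E → V`
(loops and parallel edges allowed).
-/

namespace Pool.Agent.Circ

open Finset

variable {V E : Type*} [Fintype V] [DecidableEq V] [Fintype E] [DecidableEq E]

/-- The edge cut of `X`: edges with exactly one end in `X`. -/
def cut (s t : E → V) (X : Finset V) : Finset E :=
  univ.filter (fun e => ¬ (s e ∈ X ↔ t e ∈ X))

/-- Net outflow of `f` at `v`. -/
def dv (s t : E → V) (f : E → ℝ) (v : V) : ℝ :=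
  ∑ e, ((if s e = v then f e else 0) - (if t e = v then f e else 0))

/-- The energy form `∑ c_e (y_s - y_t)^2`. -/
def Q (s t : E → V) (c : E → ℝ) (y : V → ℝ) : ℝ :=
  ∑ e, c e * (y (s e) - y (t e)) ^ 2

end Pool.Agent.Circ
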