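import Mathlib
import Pool.Agent.Work.MP_974d84_co_circ.Defs

/-!
M5: from 3-edge-connected graphs (theorem M4 = `main`) to all bridgeless graphs.
-/

namespace Pool.Agent.Circ

open Finset

universe u w

/-- The statement of the main theorem M4, for vertex types in `Type u`, edge types in `Type w`. -/
def MainStatement : Prop :=
  ∀ (V : Type u) (E : Type w) [Fintype V] [DecidableEq V] [Fintype E] [DecidableEq E]
    (s t : E → V) (k : ℕ) (_ : 2 ≤ k) (_ : 2 ≤ Fintype.card V)
    (_ : ∀ X : Finset V, X.Nonempty → X ≠ univ → k ≤ (cut s t X).card),
    ∃ f : E → ℝ, (∀ v, dv s t f v = 0) ∧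
      ∀ e, 1 - (2 / k * (1 - 1 / Fintype.card V) : ℝ) ≤ |f e| ∧
        |f e| ≤ 1 + (2 / k * (1 - 1 / Fintype.card V) : ℝ)

section
variable {V : Type u} {W : Type u} {E : Type w} [Fintype V] [DecidableEq V] [Fintype W]
  [DecidableEq W] [Fintype E] [DecidableEq E]

theorem sum_dv (s t : E → V) (f : E → ℝ) (X : Finset V) :
    ∑ v ∈ X, dv s t f v =
      ∑ e, ((if s e ∈ X then f e else 0) - (if t e ∈ X then f e else 0)) := by
  unfold dv
  rw [Finset.sum_comm]
  refine Finset.sum_congr rfl fun e _ => ?_
  rw [Finset.sum_sub_distrib, Finset.sum_ite_eq, Finset.sum_ite_eq]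

theorem dv_comp (r : V → W) (s t : E → V) (f : E → ℝ) (x : W) :
    dv (r ∘ s) (r ∘ t) f x = ∑ v ∈ univ.filter (fun v => r v = x), dv s t f v := by
  rw [sum_dv]
  unfold dv
  simp

theorem cut_comp (r : V → W) (s t : E → V) (X : Finset W) :
    cut (r ∘ s) (r ∘ t) X = cut s t (univ.filter (fun v => r v ∈ X)) := by
  unfold cut
  ext e
  simp

/-- identify `b` with `a` -/
def ident (a b : V) (h : a ≠ b) (v : V) : {v : V // v ≠ b} :=
  if hv : v = b then ⟨a, h⟩ else ⟨v, hv⟩

theorem dv_ident_of_ne (a b : V) (h : a ≠ b) (s t : E → V) (f : E → ℝ) (v : V)
    (hva : v ≠ a) (hvb : v ≠ b) :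
    dv (ident a b h ∘ s) (ident a b h ∘ t) f ⟨v, hvb⟩ = dv s t f v := by
  rw [dv_comp]
  have : (univ.filter (fun u => ident a b h u = ⟨v, hvb⟩)) = {v} := by
    ext u
    simp only [mem_filter, mem_univ, true_and, mem_singleton]
    unfold ident
    split_ifs with hu
    · subst hu
      constructor
      · intro h1
        exact absurd (congrArg Subtype.val h1).symm hva
      · intro h1
        exact absurd h1.symm hvb
    · constructor
      · intro h1
        exact congrArg Subtype.val h1
      · intro h1
        exact Subtype.ext h1
  rw [this, Finset.sum_singleton]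

theorem dv_ident_self (a b : V) (h : a ≠ b) (s t : E → V) (f : E → ℝ) :
    dv (ident a b h ∘ s) (ident a b h ∘ t) f ⟨a, h⟩ = dv s t f a + dv s t f b := by
  rw [dv_comp]
  have : (univ.filter (fun u => ident a b h u = ⟨a, h⟩)) = {a, b} := by
    ext u
    simp only [mem_filter, mem_univ, true_and, mem_insert, mem_singleton]
    unfold ident
    split_ifs with hu
    · subst hu
      simp
    · constructor
      · intro h1
        exact Or.inl (congrArg Subtype.val h1)
      · intro h1
        rcases h1 with h1 | h1
        · exact Subtype.ext h1
        · exact absurd h1 hu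
  rw [this, Finset.sum_pair h]

/-- If all divergences vanish outside `a, b`, their sum vanishes, and some set separating `a` from `b`
has total divergence zero, then all divergences vanish. -/
theorem dv_eq_zero_of (a b : V) (g : V → ℝ) (hne : ∀ v, v ≠ a → v ≠ b → g v = 0)
    (hab : g a + g b = 0) (X : Finset V) (ha : a ∈ X) (hb : b ∉ X) (hX : ∑ v ∈ X, g v = 0) :
    ∀ v, g v = 0 := by
  have h1 : g a = 0 := by
    rw [← hX]
    symm
    apply Finset.sum_eq_single_of_mem a ha
    intro v hv hva
    apply hne v hva
    rintro rfl
    exact hb hv
  have h2 : g b = 0 := by linarith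
  intro v
  by_cases hva : v = a
  · rw [hva, h1]
  · by_cases hvb : v = b
    · rw [hvb, h2]
    · exact hne v hva hvb

theorem card_ident (b : V) : Fintype.card {v : V // v ≠ b} = Fintype.card V - 1 := by
  rw [Fintype.card_subtype_compl, Fintype.card_subtype_eq]

end

theorem bridgeless_aux (H : MainStatement.{u, w}) (n : ℕ) :
    ∀ (V : Type u) (E : Type w) [Fintype V] [DecidableEq V] [Fintype E] [DecidableEq E],
      Fintype.card V = n → Nonempty V → ∀ (s t : E → V),
      (∀ X : Finset V, (cut s t X).card ≠ 1) →
      ∃ f : E → ℝ, (∀ v, dv s t f v = 0) ∧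
        ∀ e, 1 ≤ |f e| ∧ |f e| ≤ 5 - 12 / (Fintype.card V + 2 : ℝ) := by
  induction n with
  | zero =>
    intro V E _ _ _ _ hn hV s t hcut
    exact absurd (Fintype.card_pos (α := V)) (by omega)
  | succ n ih =>
    intro V E _ _ _ _ hn hV s t hcut
    rcases Nat.eq_zero_or_pos n with h0 | hpos
    · -- one vertex
      subst h0
      have hsub : Subsingleton V := Fintype.card_le_one_iff_subsingleton.mp (by omega)
      refine ⟨fun _ => 1, ?_, ?_⟩
      · intro v
        unfold dv
        apply Finset.sum_eq_zero
        intro e _
        rw [if_pos (Subsingleton.elim _ _), if_pos (Subsingleton.elim _ _), sub_self]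
      · intro e
        rw [hn]
        norm_num
    · have hbound : (5 : ℝ) - 12 / (n + 2 : ℝ) ≤ 5 - 12 / (Fintype.card V + 2 : ℝ) := by
        rw [hn]
        push_cast
        have h1 : (0 : ℝ) < n + 2 := by positivity
        have h2 : (0 : ℝ) < n + 1 + 2 := by positivity
        have : 12 / ((n : ℝ) + 1 + 2) ≤ 12 / ((n : ℝ) + 2) := by
          apply div_le_div_of_nonneg_left (by norm_num) h1
          linarith
        linarith
      by_cases hsmall : ∃ X : Finset V, X.Nonempty ∧ X ≠ univ ∧ (cut s t X).card < 3
      · obtain ⟨X, hXne, hXuniv, hX3⟩ := hsmall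
        have hX1 := hcut X
        have hcase : (cut s t X).card = 0 ∨ (cut s t X).card = 2 := by omega
        -- a general reduction
        have key : ∀ (a b : V) (h : a ≠ b), ∃ f : E → ℝ,
            (∀ v, v ≠ a → v ≠ b → dv s t f v = 0) ∧ (dv s t f a + dv s t f b = 0) ∧
            ∀ e, 1 ≤ |f e| ∧ |f e| ≤ 5 - 12 / (Fintype.card V + 2 : ℝ) := by
          intro a b h
          have hcard : Fintype.card {v : V // v ≠ b} = n := by
            rw [card_ident, hn]; rfl
          obtain ⟨f, hf1, hf2⟩ := ih {v : V // v ≠ b} E hcard ⟨⟨a, h⟩⟩
            (ident a b h ∘ s) (ident a b h ∘ t) (fun Y => by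
              rw [cut_comp]; exact hcut _)
          refine ⟨f, ?_, ?_, ?_⟩
          · intro v hva hvb
            rw [← dv_ident_of_ne a b h s t f v hva hvb]
            exact hf1 _
          · rw [← dv_ident_self a b h s t f]
            exact hf1 _
          · intro e
            refine ⟨(hf2 e).1, (hf2 e).2.trans ?_⟩
            rw [hcard]
            exact hbound
        rcases hcase with hc0 | hc2
        · -- empty cut
          obtain ⟨a, ha⟩ := hXne
          obtain ⟨b, hb⟩ : ∃ b, b ∉ X := by
            by_contra hcon
            push Not at hcon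
            exact hXuniv (Finset.eq_univ_iff_forall.mpr hcon)
          have hab : a ≠ b := by rintro rfl; exact hb ha
          obtain ⟨f, hf1, hf2, hf3⟩ := key a b hab
          refine ⟨f, dv_eq_zero_of a b _ hf1 hf2 X ha hb ?_, hf3⟩
          rw [sum_dv]
          apply Finset.sum_eq_zero
          intro e _
          have hcut0 : cut s t X = ∅ := Finset.card_eq_zero.mp hc0
          have he : e ∉ cut s t X := by rw [hcut0]; simp
          unfold cut at he
          simp only [mem_filter, mem_univ, true_and, not_not] at he
          by_cases hs : s e ∈ X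
          · rw [if_pos hs, if_pos (he.mp hs), sub_self]
          · rw [if_neg hs, if_neg (fun h => hs (he.mpr h)), sub_self]
        · -- cut of size two
          obtain ⟨e1, e2, he12, hcut2⟩ := Finset.card_eq_two.mp hc2
          have he1 : e1 ∈ cut s t X := by rw [hcut2]; simp
          have he2 : e2 ∈ cut s t X := by rw [hcut2]; simp
          -- sign of an edge with respect to `X`
          let σ : E → ℝ := fun e => (if s e ∈ X then 1 else 0) - (if t e ∈ X then 1 else 0)
          have hσ : ∀ e ∈ cut s t X, σ e = 1 ∨ σ e = -1 := by
            intro e he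
            unfold cut at he
            simp only [mem_filter, mem_univ, true_and] at he
            simp only [σ]
            by_cases hs : s e ∈ X
            · have ht : t e ∉ X := fun h => he ⟨fun _ => h, fun _ => hs⟩
              left; rw [if_pos hs, if_neg ht]; norm_num
            · have ht : t e ∈ X := by
                by_contra ht
                exact he ⟨fun h => absurd h hs, fun h => absurd h ht⟩
              right; rw [if_neg hs, if_pos ht]; norm_num
          have hσ0 : ∀ e, e ∉ cut s t X → σ e = 0 := by
            intro e he
            unfold cut at he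
            simp only [mem_filter, mem_univ, true_and, not_not] at he
            simp only [σ]
            by_cases hs : s e ∈ X
            · rw [if_pos hs, if_pos (he.mp hs), sub_self]
            · rw [if_neg hs, if_neg (fun h => hs (he.mpr h)), sub_self]
          have hsumσ : ∀ f : E → ℝ, ∑ v ∈ X, dv s t f v = σ e1 * f e1 + σ e2 * f e2 := by
            intro f
            rw [sum_dv]
            have : ∀ e, ((if s e ∈ X then f e else 0) - (if t e ∈ X then f e else 0)) = σ e * f e := by
              intro e
              simp only [σ]
              split_ifs <;> ring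
            rw [Finset.sum_congr rfl (fun e _ => this e)]
            rw [← Finset.sum_subset (Finset.subset_univ (cut s t X))]
            · rw [hcut2, Finset.sum_pair he12]
            · intro e _ he
              rw [hσ0 e he, zero_mul]
          -- the end `a` of `e1` in `X` and the other end `b`
          obtain ⟨a, b, ha, hb, hends⟩ : ∃ a b : V, a ∈ X ∧ b ∉ X ∧
              ((s e1 = a ∧ t e1 = b) ∨ (s e1 = b ∧ t e1 = a)) := by
            have he := he1
            unfold cut at he
            simp only [mem_filter, mem_univ, true_and] at he
            by_cases hs : s e1 ∈ X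
            · have ht : t e1 ∉ X := fun h => he ⟨fun _ => h, fun _ => hs⟩
              exact ⟨s e1, t e1, hs, ht, Or.inl ⟨rfl, rfl⟩⟩
            · have ht : t e1 ∈ X := by
                by_contra ht
                exact he ⟨fun h => absurd h hs, fun h => absurd h ht⟩
              exact ⟨t e1, s e1, ht, hs, Or.inr ⟨rfl, rfl⟩⟩
          have hab : a ≠ b := by rintro rfl; exact hb ha
          obtain ⟨f, hf1, hf2, hf3⟩ := key a b hab
          let g : E → ℝ := Function.update f e1 (-(σ e1 * σ e2 * f e2))
          have hge1 : g e1 = -(σ e1 * σ e2 * f e2) := by simp [g]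
          have hgne : ∀ e, e ≠ e1 → g e = f e := by
            intro e he
            simp [g, Function.update_of_ne he]
          have hdvdiff : ∀ v, dv s t g v = dv s t f v +
              ((if s e1 = v then g e1 - f e1 else 0) - (if t e1 = v then g e1 - f e1 else 0)) := by
            intro v
            unfold dv
            rw [← Finset.add_sum_erase _ _ (mem_univ e1), ← Finset.add_sum_erase univ
              (fun e => ((if s e = v then f e else 0) - (if t e = v then f e else 0))) (mem_univ e1)]
            have : ∑ e ∈ univ.erase e1, ((if s e = v then g e else 0) - (if t e = v then g e else 0))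
                = ∑ e ∈ univ.erase e1, ((if s e = v then f e else 0) - (if t e = v then f e else 0)) := by
              apply Finset.sum_congr rfl
              intro e he
              rw [hgne e (Finset.ne_of_mem_erase he)]
            rw [this]
            split_ifs <;> ring
          refine ⟨g, dv_eq_zero_of a b _ ?_ ?_ X ha hb ?_, ?_⟩
          · intro v hva hvb
            rw [hdvdiff, hf1 v hva hvb]
            have h1 : s e1 ≠ v := by
              rcases hends with ⟨h1, _⟩ | ⟨h1, _⟩
              · rw [h1]; exact hva.symm
              · rw [h1]; exact hvb.symm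
            have h2 : t e1 ≠ v := by
              rcases hends with ⟨_, h2⟩ | ⟨_, h2⟩
              · rw [h2]; exact hvb.symm
              · rw [h2]; exact hva.symm
            rw [if_neg h1, if_neg h2]
            ring
          · rw [hdvdiff a, hdvdiff b]
            rcases hends with ⟨h1, h2⟩ | ⟨h1, h2⟩
            · rw [h1, h2, if_pos rfl, if_neg hab.symm, if_neg hab, if_pos rfl]
              linarith
            · rw [h1, h2, if_neg hab.symm, if_pos rfl, if_pos rfl, if_neg hab]
              linarith
          · rw [hsumσ g, hge1, hgne e2 he12.symm]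
            rcases hσ e1 he1 with h1 | h1 <;> rw [h1] <;> ring
          · intro e
            by_cases he : e = e1
            · subst he
              rw [hge1]
              have habs : |-(σ e * σ e2 * f e2)| = |f e2| := by
                rw [abs_neg, abs_mul, abs_mul]
                rcases hσ e he1 with h1 | h1 <;> rcases hσ e2 he2 with h2 | h2 <;> rw [h1, h2] <;>
                  simp
              rw [habs]
              exact hf3 e2
            · rw [hgne e he]
              exact hf3 e
      · -- 3-edge-connected
        push Not at hsmall
        have hn2 : 2 ≤ Fintype.card V := by omega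
        obtain ⟨f, hf1, hf2⟩ := H V E s t 3 (by norm_num) hn2
          (fun X h1 h2 => hsmall X h1 h2)
        have hN : (2 : ℝ) ≤ Fintype.card V := by exact_mod_cast hn2
        set N : ℝ := (Fintype.card V : ℝ) with hNdef
        have hNpos : 0 < N := by linarith
        set x : ℝ := 2 / (3 : ℕ) * (1 - 1 / N) with hx
        have hx1 : 1 - x = (N + 2) / (3 * N) := by
          rw [hx]; push_cast; field_simp; ring
        have hx2 : 1 + x = (5 * N - 2) / (3 * N) := by
          rw [hx]; push_cast; field_simp; ring
        have hpos : 0 < 1 - x := by
          rw [hx1]; positivity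
        refine ⟨fun e => f e / (1 - x), ?_, ?_⟩
        · intro v
          have : dv s t (fun e => f e / (1 - x)) v = dv s t f v / (1 - x) := by
            unfold dv
            rw [Finset.sum_div]
            apply Finset.sum_congr rfl
            intro e _
            split_ifs <;> ring
          rw [this, hf1, zero_div]
        · intro e
          have habs : |f e / (1 - x)| = |f e| / (1 - x) := by
            rw [abs_div, abs_of_pos hpos]
          rw [habs]
          constructor
          · rw [le_div_iff₀ hpos, one_mul]
            exact (hf2 e).1
          · rw [div_le_iff₀ hpos]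
            refine (hf2 e).2.trans (le_of_eq ?_)
            rw [hx2, hx1]
            field_simp
            ring

/-- M5 from M4. -/
theorem bridgeless_of_main (H : MainStatement.{u, w}) {V : Type u} {E : Type w} [Fintype V]
    [DecidableEq V] [Fintype E] [DecidableEq E] [Nonempty V] (s t : E → V)
    (hcut : ∀ X : Finset V, (cut s t X).card ≠ 1) :
    ∃ f : E → ℝ, (∀ v, dv s t f v = 0) ∧
      ∀ e, 1 ≤ |f e| ∧ |f e| ≤ 5 - 12 / (Fintype.card V + 2 : ℝ) :=
  bridgeless_aux H _ V E rfl inferInstance s t hcut

end Pool.Agent.Circ
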