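import Mathlib
import Pool.Agent.Work.MP_974d84_co_circ.Defs

/-!
Integral rounding of a fractional orientation (M3), by Hall's theorem.
-/

namespace Pool.Agent.Circ

open Finset

variable {V E : Type*} [Fintype V] [DecidableEq V] [Fintype E] [DecidableEq E]

/-- Rounding: a fractional vector with values in `[-1,1]` whose divergence has the parity of an
orientation has the same divergence as an orientation; the values `±1` are kept on non-loops. -/
theorem rounding_strong (s t : E → V) (z : E → ℝ) (hz : ∀ e, |z e| ≤ 1) (q : V → ℤ)
    (h : ∀ v, dv s t z v = dv s t (fun _ => 1) v + 2 * q v) :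
    ∃ o : E → ℝ, (∀ e, o e = 1 ∨ o e = -1) ∧ (∀ v, dv s t o v = dv s t z v) ∧
      ∀ e, |z e| = 1 → o e = z e := by
  classical
  -- fractional assignment
  set al : E → V → ℝ := fun e v =>
    if s e = t e then 0 else
      (if s e = v then (1 + z e) / 2 else 0) + (if t e = v then (1 - z e) / 2 else 0) with hal
  have hal0 : ∀ e v, 0 ≤ al e v := by
    intro e v
    have h1 := abs_le.mp (hz e)
    simp only [hal]
    split_ifs <;> linarith [h1.1, h1.2]
  -- out degrees
  set sd : V → ℤ := fun v => ((univ.filter (fun e => s e ≠ t e ∧ s e = v)).card : ℤ) with hsd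
  have hsdR : ∀ v, ((sd v : ℤ) : ℝ) = ∑ e, (if s e = t e then 0 else if s e = v then (1:ℝ) else 0) := by
    intro v
    simp only [hsd, card_filter]
    push_cast
    apply sum_congr rfl
    intro e _
    by_cases h1 : s e = t e <;> by_cases h2 : s e = v <;> simp [h1, h2]
  have hout : ∀ v, ∑ e, al e v = ((sd v + q v : ℤ) : ℝ) := by
    intro v
    have h1 := h v
    have h2 : ∑ e, al e v = (sd v : ℝ) + (dv s t z v - dv s t (fun _ => 1) v) / 2 := by
      rw [hsdR, dv, dv, ← sum_sub_distrib, sum_div, ← sum_add_distrib]
      apply sum_congr rfl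
      intro e _
      simp only [hal]
      by_cases h1 : s e = t e
      · simp [h1]
      · by_cases h2 : s e = v <;> by_cases h3 : t e = v
        · exact absurd (h2.trans h3.symm) h1
        · simp only [if_neg h1, if_pos h2, if_neg h3]; ring
        · simp only [if_neg h1, if_neg h2, if_pos h3]; ring
        · simp only [if_neg h1, if_neg h2, if_neg h3]; ring
    rw [h2, h1]; push_cast; ring
  have hout0 : ∀ v, 0 ≤ sd v + q v := by
    intro v
    have : (0:ℝ) ≤ ((sd v + q v : ℤ) : ℝ) := by
      rw [← hout v]; exact sum_nonneg (fun e _ => hal0 e v)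
    exact_mod_cast this
  set out : V → ℕ := fun v => (sd v + q v).toNat with hout'
  have houtR : ∀ v, (out v : ℝ) = ∑ e, al e v := by
    intro v
    rw [hout v]
    have : ((out v : ℤ)) = sd v + q v := Int.toNat_of_nonneg (hout0 v)
    rw [← this]; push_cast; rfl
  -- Hall
  let N := {e : E // s e ≠ t e}
  let A : N → Finset V := fun e => (({s e.1, t e.1} : Finset V).filter (fun v => 0 < al e.1 v))
  let T : N → Finset (Σ v : V, Fin (out v)) := fun e =>
    (A e).sigma (fun v => (univ : Finset (Fin (out v))))
  have hHall : ∀ F : Finset N, F.card ≤ (F.biUnion T).card := by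
    intro F
    set VF : Finset V := F.biUnion A with hVF
    have e1 : F.biUnion T = VF.sigma (fun v => (univ : Finset (Fin (out v)))) := by
      ext ⟨v, i⟩
      simp only [T, mem_biUnion, mem_sigma, mem_univ, and_true, hVF]
    rw [e1, card_sigma]
    simp only [card_univ, Fintype.card_fin]
    have e2 : (F.card : ℝ) ≤ ((∑ v ∈ VF, out v : ℕ) : ℝ) := by
      push_cast
      simp_rw [houtR]
      rw [sum_comm]
      have e3 : (F.card : ℝ) = ∑ e ∈ F, (1 : ℝ) := by simp
      have e4 : ∑ e ∈ F, (1:ℝ) ≤ ∑ e ∈ F, ∑ v ∈ VF, al e.1 v := by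
        apply sum_le_sum
        intro e he
        have hne : s e.1 ≠ t e.1 := e.2
        have e5 : ∑ v ∈ A e, al e.1 v ≤ ∑ v ∈ VF, al e.1 v := by
          apply sum_le_sum_of_subset_of_nonneg
          · intro v hv
            exact mem_biUnion.mpr ⟨e, he, hv⟩
          · intro v _ _; exact hal0 _ _
        have e5' : ∑ v ∈ A e, al e.1 v = ∑ v ∈ ({s e.1, t e.1} : Finset V), al e.1 v := by
          simp only [A]
          rw [sum_filter]
          apply sum_congr rfl
          intro v _
          split_ifs with h7
          · rfl
          · exact le_antisymm (hal0 e.1 v) (not_lt.mp h7)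
        refine le_trans (le_of_eq ?_) e5
        rw [e5', sum_pair hne]
        simp only [hal, hne, hne.symm, if_true, if_false]
        ring
      have e6 : ∑ e ∈ F, ∑ v ∈ VF, al e.1 v ≤ ∑ e : E, ∑ v ∈ VF, al e v := by
        have : ∑ e ∈ F, ∑ v ∈ VF, al e.1 v
            = ∑ e ∈ F.map (Function.Embedding.subtype _), ∑ v ∈ VF, al e v := by
          rw [sum_map]; rfl
        rw [this]
        apply sum_le_sum_of_subset_of_nonneg (subset_univ _)
        intro e _ _
        exact sum_nonneg (fun v _ => hal0 _ _)
      linarith
    exact_mod_cast e2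
  obtain ⟨f, finj, fT⟩ := (Finset.all_card_le_biUnion_card_iff_exists_injective T).mp hHall
  have hcard : Fintype.card N = Fintype.card (Σ v : V, Fin (out v)) := by
    rw [Fintype.card_sigma]
    simp only [Fintype.card_fin]
    have : ((∑ v, out v : ℕ) : ℝ) = (Fintype.card N : ℝ) := by
      push_cast
      simp_rw [houtR]
      rw [sum_comm]
      have e7 : ∀ e, ∑ v, al e v = if s e ≠ t e then 1 else 0 := by
        intro e
        simp only [hal]
        by_cases h1 : s e = t e
        · simp [h1]
        · simp only [h1, if_false, sum_add_distrib, sum_ite_eq, mem_univ, if_true, ne_eq,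
            not_false_eq_true]
          ring
      simp_rw [e7]
      rw [sum_boole, Fintype.card_subtype]
    exact_mod_cast this.symm
  have fbij : Function.Bijective f := (Fintype.bijective_iff_injective_and_card f).mpr ⟨finj, hcard⟩
  -- the number of edges with tail v
  have hcnt : ∀ v, (univ.filter (fun e : N => (f e).1 = v)).card = out v := by
    intro v
    have : (univ.filter (fun e : N => (f e).1 = v)).card
        = (univ.filter (fun p : (Σ v : V, Fin (out v)) => p.1 = v)).card := by
      apply Finset.card_bij (fun e _ => f e)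
      · intro e he; simpa using he
      · intro a _ b _ hab; exact finj hab
      · intro p hp
        obtain ⟨e, he⟩ := fbij.2 p
        exact ⟨e, by simpa [he] using hp, he⟩
    rw [this]
    have h2 : univ.filter (fun p : (Σ v : V, Fin (out v)) => p.1 = v)
        = ({v} : Finset V).sigma (fun v => (univ : Finset (Fin (out v)))) := by
      ext ⟨u, i⟩; simp
    rw [h2, card_sigma]; simp
  have hfmem' : ∀ e : N, ((f e).1 = s e.1 ∨ (f e).1 = t e.1) ∧ 0 < al e.1 (f e).1 := by
    intro e
    have := fT e
    simp only [T, A, mem_sigma, mem_filter, mem_insert, mem_singleton, mem_univ, and_true] at this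
    exact this
  have hfmem : ∀ e : N, (f e).1 = s e.1 ∨ (f e).1 = t e.1 := fun e => (hfmem' e).1
  refine ⟨fun e => if hne : s e ≠ t e then (if (f ⟨e, hne⟩).1 = s e then 1 else -1) else
    (if z e = -1 then -1 else 1), ?_, ?_, ?_⟩
  · intro e
    dsimp only
    split_ifs <;> simp
  rotate_left
  · intro e he
    dsimp only
    have he' : z e = 1 ∨ z e = -1 := by
      rcases abs_eq (by norm_num : (0:ℝ) ≤ 1) |>.mp he with h | h
      · exact Or.inl h
      · exact Or.inr h
    split_ifs with h1 h2 h3
    · rcases he' with h4 | h4
      · exact h4.symm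
      · exfalso
        have h5 := (hfmem' ⟨e, h1⟩).2
        rw [h2] at h5
        simp only [hal, h4, h1, h1.symm, if_true, if_false] at h5
        norm_num at h5
    · rcases he' with h4 | h4
      · exfalso
        have h5 := hfmem' ⟨e, h1⟩
        rcases h5.1 with h6 | h6
        · exact h2 h6
        · have h7 := h5.2
          rw [h6] at h7
          simp only [hal, h4, h1, h1.symm, if_true, if_false] at h7
          norm_num at h7
      · exact h4.symm
    · exact h3.symm
    · rcases he' with h4 | h4
      · exact h4.symm
      · exact absurd h4 h3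
  · intro v
    -- compute the divergence of o
    have hz2 : dv s t z v = 2 * (out v : ℝ) - ∑ e, (if s e = t e then 0 else
        (if s e = v then (1:ℝ) else 0) + (if t e = v then 1 else 0)) := by
      rw [houtR, mul_sum, dv, ← sum_sub_distrib]
      apply sum_congr rfl
      intro e _
      simp only [hal]
      by_cases h1 : s e = t e
      · simp [h1]
      · by_cases h2 : s e = v <;> by_cases h3 : t e = v
        · exact absurd (h2.trans h3.symm) h1
        · simp only [if_neg h1, if_pos h2, if_neg h3]; ring
        · simp only [if_neg h1, if_neg h2, if_pos h3]; ring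
        · simp only [if_neg h1, if_neg h2, if_neg h3]; ring
    rw [hz2, ← hcnt v, card_filter]
    push_cast
    have h3 : ∑ e : N, (if (f e).1 = v then (1:ℝ) else 0)
        = ∑ e : E, (if hne : s e ≠ t e then (if (f ⟨e, hne⟩).1 = v then (1:ℝ) else 0) else 0) := by
      set G : E → ℝ := fun e =>
        (if hne : s e ≠ t e then (if (f ⟨e, hne⟩).1 = v then (1:ℝ) else 0) else 0) with hG
      have h5 : ∑ e : E, G e = ∑ e ∈ univ.filter (fun e => s e ≠ t e), G e := by
        rw [sum_filter]
        apply sum_congr rfl
        intro e _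
        by_cases h1 : s e ≠ t e
        · rw [if_pos h1]
        · rw [if_neg h1, hG]; simp only; rw [dif_neg h1]
      rw [h5, ← Finset.sum_subtype_eq_sum_filter]
      have h6 : (Finset.subtype (fun e => s e ≠ t e) univ) = (univ : Finset N) := by
        ext x; simp
      rw [h6]
      apply sum_congr rfl
      intro e _
      have : s e.1 ≠ t e.1 := e.2
      simp only [hG]
      rw [dif_pos this]
    rw [h3, mul_sum, dv, ← sum_sub_distrib]
    apply sum_congr rfl
    intro e _
    by_cases h1 : s e = t e
    · simp [h1]
    · have hne : s e ≠ t e := h1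
      have hm := hfmem ⟨e, hne⟩
      simp only at hm
      rw [dif_pos hne, dif_pos hne, if_neg h1]
      by_cases h2 : s e = v <;> by_cases h4 : t e = v
      · exact absurd (h2.trans h4.symm) h1
      · rw [if_pos h2, if_neg h4, if_pos h2, if_neg h4]
        rcases hm with hm | hm
        · rw [if_pos hm, if_pos (hm.trans h2)]; norm_num
        · rw [if_neg (fun hh => h1 (hh.symm.trans hm)), if_neg (fun hh => h4 (hm.symm.trans hh))]
          norm_num
      · rw [if_neg h2, if_pos h4, if_neg h2, if_pos h4]
        rcases hm with hm | hm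
        · rw [if_pos hm, if_neg (fun hh => h2 (hm.symm.trans hh))]; norm_num
        · rw [if_neg (fun hh => h1 (hh.symm.trans hm)), if_pos (hm.trans h4)]
          norm_num
      · rw [if_neg h2, if_neg h4, if_neg h2, if_neg h4]
        have : ¬ (f ⟨e, hne⟩).1 = v := by
          intro hh
          rcases hm with hm | hm
          · exact h2 (hm.symm.trans hh)
          · exact h4 (hm.symm.trans hh)
        rw [if_neg this]; norm_num

/-- Rounding, weak form. -/
theorem rounding (s t : E → V) (z : E → ℝ) (hz : ∀ e, |z e| ≤ 1) (q : V → ℤ)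
    (h : ∀ v, dv s t z v = dv s t (fun _ => 1) v + 2 * q v) :
    ∃ o : E → ℝ, (∀ e, o e = 1 ∨ o e = -1) ∧ ∀ v, dv s t o v = dv s t z v := by
  obtain ⟨o, h1, h2, _⟩ := rounding_strong s t z hz q h
  exact ⟨o, h1, h2⟩

end Pool.Agent.Circ
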