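import Mathlib
import Pool.Agent.Work.MP_974d84_co_circ.Defs
import Pool.Agent.Work.MP_974d84_co_circ.Rounding

/-!
From real circulations to integral ones.
-/

namespace Pool.Agent.Circ

open Finset

variable {V E : Type*} [Fintype V] [DecidableEq V] [Fintype E] [DecidableEq E]

/-- A real circulation with `a ≤ |f| ≤ b` (`a, b` natural numbers) can be rounded to an integral
one with the same bounds. -/
theorem int_of_real (s t : E → V) (f : E → ℝ) (hf : ∀ v, dv s t f v = 0) (a b : ℕ)
    (h : ∀ e, (a:ℝ) ≤ |f e| ∧ |f e| ≤ b) :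
    ∃ g : E → ℤ, (∀ v, ∑ e, ((if s e = v then g e else 0) - (if t e = v then g e else 0)) = 0) ∧
      ∀ e, (a:ℤ) ≤ |g e| ∧ |g e| ≤ b := by
  classical
  set z : E → ℝ := fun e => 2 * Int.fract (f e) - 1 with hz
  have hz1 : ∀ e, |z e| ≤ 1 := by
    intro e
    have h1 := Int.fract_nonneg (f e)
    have h2 := (Int.fract_lt_one (f e)).le
    rw [abs_le]; simp only [hz]; constructor <;> linarith
  set q : V → ℤ := fun v => ∑ e, ((if s e = v then -⌊f e⌋ - 1 else 0) - (if t e = v then -⌊f e⌋ - 1 else 0))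
    with hq
  have hdiv : ∀ v, dv s t z v = dv s t (fun _ => 1) v + 2 * q v := by
    intro v
    have h0 := hf v
    have h1 : dv s t z v = dv s t (fun _ => 1) v + 2 * q v + 2 * dv s t f v := by
      simp only [hq, hz, dv]
      push_cast
      rw [mul_sum, mul_sum, ← sum_add_distrib, ← sum_add_distrib]
      apply sum_congr rfl
      intro e _
      have h3 : (Int.fract (f e) : ℝ) = f e - ⌊f e⌋ := rfl
      rw [h3]
      split_ifs <;> ring
    rw [h1, h0]; ring
  obtain ⟨o, ho, hdo, hkeep⟩ := rounding_strong s t z hz1 q hdiv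
  set g : E → ℤ := fun e => ⌊f e⌋ + (if o e = 1 then 1 else 0) with hg
  have hgR : ∀ e, (g e : ℝ) = ⌊f e⌋ + (o e + 1) / 2 := by
    intro e
    simp only [hg]
    push_cast
    rcases ho e with h1 | h1
    · rw [h1]; norm_num
    · rw [h1]; norm_num
  refine ⟨g, ?_, ?_⟩
  · intro v
    have h1 : dv s t (fun e => (g e : ℝ)) v = 0 := by
      have h2 : dv s t (fun e => (g e : ℝ)) v
          = dv s t f v + (dv s t o v - dv s t z v) / 2 := by
        simp only [dv, hgR, hz]
        rw [← sum_sub_distrib, sum_div, ← sum_add_distrib]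
        apply sum_congr rfl
        intro e _
        have h3 : (Int.fract (f e) : ℝ) = f e - ⌊f e⌋ := rfl
        rw [h3]
        split_ifs <;> ring
      rw [h2, hf v, hdo v]; ring
    unfold dv at h1
    have h3 : ((∑ e, ((if s e = v then g e else 0) - (if t e = v then g e else 0)) : ℤ) : ℝ) = 0 := by
      rw [← h1]; push_cast
      apply sum_congr rfl
      intro e _
      split_ifs <;> simp
    exact_mod_cast h3
  · intro e
    have hfl : (⌊f e⌋ : ℝ) ≤ f e := Int.floor_le _
    have hfr : (Int.fract (f e) : ℝ) = f e - ⌊f e⌋ := rfl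
    have hc : (g e = ⌊f e⌋) ∨ (g e = ⌊f e⌋ + 1 ∧ (⌊f e⌋ : ℝ) < f e) := by
      by_cases h0 : Int.fract (f e) = 0
      · left
        have h1 : z e = -1 := by simp [hz, h0]
        have h2 := hkeep e (by rw [h1]; norm_num)
        simp only [hg]
        rw [h2, h1]
        norm_num
      · have h1 : 0 < Int.fract (f e) := lt_of_le_of_ne (Int.fract_nonneg _) (Ne.symm h0)
        rcases ho e with h2 | h2
        · right
          refine ⟨by simp [hg, h2], by rw [hfr] at h1; linarith⟩
        · left
          simp only [hg, h2]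
          norm_num
    obtain ⟨h1, h2⟩ := h e
    rcases le_total 0 (f e) with hpos | hneg
    · rw [abs_of_nonneg hpos] at h1 h2
      have h3 : (a:ℤ) ≤ ⌊f e⌋ := Int.le_floor.mpr (by exact_mod_cast h1)
      have h4 : ⌊f e⌋ ≤ (b:ℤ) := by
        have : (⌊f e⌋ : ℝ) ≤ b := hfl.trans h2
        exact_mod_cast this
      have h5 : g e ≤ b ∧ (a:ℤ) ≤ g e := by
        rcases hc with hc | ⟨hc, hlt⟩
        · rw [hc]; exact ⟨h4, h3⟩
        · rw [hc]
          refine ⟨?_, by linarith⟩
          have : (⌊f e⌋ : ℝ) < b := lt_of_lt_of_le hlt h2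
          have : ⌊f e⌋ < (b:ℤ) := by exact_mod_cast this
          omega
      have h6 : 0 ≤ g e := le_trans (Int.natCast_nonneg a) h5.2
      rw [abs_of_nonneg h6]
      exact ⟨h5.2, h5.1⟩
    · rw [abs_of_nonpos hneg] at h1 h2
      have h3 : -(b:ℤ) ≤ ⌊f e⌋ := Int.le_floor.mpr (by push_cast; linarith)
      have h4 : ⌊f e⌋ ≤ -(a:ℤ) := by
        have : (⌊f e⌋ : ℝ) ≤ -a := by linarith
        exact_mod_cast this
      have h5 : g e ≤ -a ∧ -(b:ℤ) ≤ g e := by
        rcases hc with hc | ⟨hc, hlt⟩
        · rw [hc]; exact ⟨h4, h3⟩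
        · rw [hc]
          refine ⟨?_, by linarith⟩
          have : (⌊f e⌋ : ℝ) < -a := by linarith
          have : ⌊f e⌋ < -(a:ℤ) := by exact_mod_cast this
          omega
      have h6 : g e ≤ 0 := by
        have := Int.natCast_nonneg a
        linarith [h5.1]
      rw [abs_of_nonpos h6]
      constructor <;> linarith [h5.1, h5.2]

end Pool.Agent.Circ
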