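import Mathlib
import Pool.Agent.Work.MP_974d84_co_circ.Defs

/-!
M2: the energy minimal chain in a coset of the lattice of even divergences carries at most the
leverage on every edge.
-/

set_option linter.unusedSectionVars false

namespace Pool.Agent.Circ

open Finset

variable {V E : Type*} [Fintype V] [DecidableEq V] [Fintype E] [DecidableEq E]

/-- Summation by parts. -/
theorem sum_mul_dv (s t : E → V) (f : E → ℝ) (y : V → ℝ) :
    ∑ v, y v * dv s t f v = ∑ e, f e * (y (s e) - y (t e)) := by
  unfold dv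
  simp_rw [Finset.mul_sum]
  rw [Finset.sum_comm]
  refine Finset.sum_congr rfl fun e _ => ?_
  simp_rw [mul_sub, mul_ite, mul_zero]
  rw [Finset.sum_sub_distrib, Finset.sum_ite_eq, Finset.sum_ite_eq]
  simp [mul_comm]

theorem dv_add (s t : E → V) (f g : E → ℝ) (v : V) :
    dv s t (fun e => f e + g e) v = dv s t f v + dv s t g v := by
  unfold dv
  rw [← Finset.sum_add_distrib]
  refine Finset.sum_congr rfl fun e _ => ?_
  split_ifs <;> ring

theorem dv_smul (s t : E → V) (f : E → ℝ) (a : ℝ) (v : V) :
    dv s t (fun e => a * f e) v = a * dv s t f v := by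
  unfold dv
  rw [Finset.mul_sum]
  refine Finset.sum_congr rfl fun e _ => ?_
  split_ifs <;> ring

theorem dv_single (s t : E → V) (e0 : E) (v : V) :
    dv s t (fun e => if e = e0 then 1 else 0) v =
      (if s e0 = v then 1 else 0) - (if t e0 = v then 1 else 0) := by
  unfold dv
  rw [Finset.sum_eq_single e0]
  · simp
  · intro b _ hb
    simp [hb]
  · simp

theorem continuous_dv (s t : E → V) (v : V) : Continuous fun f : E → ℝ => dv s t f v := by
  unfold dv
  refine continuous_finsetSum _ fun e _ => Continuous.sub ?_ ?_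
  · by_cases h : s e = v
    · simpa [h] using continuous_apply e
    · simpa [h] using continuous_const
  · by_cases h : t e = v
    · simpa [h] using continuous_apply e
    · simpa [h] using continuous_const

/-- The energy of a chain. -/
noncomputable def En (c : E → ℝ) (z : E → ℝ) : ℝ := ∑ e, z e ^ 2 / c e

/-- The coset. -/
def Cos (s t : E → V) : Set (E → ℝ) :=
  {z | ∀ v, ∃ q : ℤ, dv s t z v = dv s t (fun _ => 1) v + 2 * q}

theorem isClosed_cos (s t : E → V) : IsClosed (Cos s t) := by
  have h : Cos s t = ⋂ v, (fun z : E → ℝ => dv s t z v) ⁻¹'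
      (Set.range fun q : ℤ => dv s t (fun _ => 1) v + 2 * (q : ℝ)) := by
    ext z
    simp only [Cos, Set.mem_ofPred_eq, Set.mem_iInter, Set.mem_preimage, Set.mem_range, eq_comm]
  rw [h]
  refine isClosed_iInter fun v => IsClosed.preimage (continuous_dv s t v) ?_
  have h1 : (Set.range fun q : ℤ => dv s t (fun _ => 1) v + 2 * (q : ℝ)) =
      (fun r : ℝ => (r - dv s t (fun _ => 1) v) / 2) ⁻¹' (Set.range ((↑) : ℤ → ℝ)) := by
    ext r
    simp only [Set.mem_range, Set.mem_preimage]
    constructor
    · rintro ⟨q, rfl⟩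
      exact ⟨q, by ring⟩
    · rintro ⟨q, hq⟩
      refine ⟨q, ?_⟩
      rw [hq]
      ring
  rw [h1]
  refine IsClosed.preimage (by fun_prop) ?_
  exact Int.isClosedEmbedding_coe_real.isClosed_range

theorem continuous_En (c : E → ℝ) : Continuous (En c) := by
  unfold En
  fun_prop

theorem exists_min (s t : E → V) (c : E → ℝ) (hc : ∀ e, 0 < c e) :
    ∃ z ∈ Cos s t, ∀ z' ∈ Cos s t, En c z ≤ En c z' := by
  set R : ℝ := En c (fun _ => 1) with hR
  have h1 : (fun _ => (1 : ℝ)) ∈ Cos s t := fun v => ⟨0, by simp⟩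
  set K : Set (E → ℝ) := Cos s t ∩ {z | En c z ≤ R} with hK
  have hKc : IsClosed K := (isClosed_cos s t).inter (isClosed_le (continuous_En c) continuous_const)
  have hsub : K ⊆ Set.pi Set.univ fun e : E => Set.Icc (-(1 + c e * R)) (1 + c e * R) := by
    intro z hz e _
    have h2 : z e ^ 2 / c e ≤ R := by
      refine le_trans ?_ hz.2
      exact Finset.single_le_sum (f := fun e => z e ^ 2 / c e)
        (fun i _ => div_nonneg (sq_nonneg _) (hc i).le) (mem_univ e)
    rw [div_le_iff₀ (hc e)] at h2
    constructor <;> nlinarith [sq_nonneg (z e - 1), sq_nonneg (z e + 1)]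
  have hcomp : IsCompact K :=
    (isCompact_univ_pi fun e => isCompact_Icc).of_isClosed_subset hKc hsub
  have hone : (fun _ => (1 : ℝ)) ∈ K := by
    refine ⟨h1, ?_⟩
    show En c (fun _ => 1) ≤ R
    exact hR.ge
  obtain ⟨z, hz, hmin⟩ := hcomp.exists_isMinOn ⟨_, hone⟩ (continuous_En c).continuousOn
  refine ⟨z, hz.1, fun z' hz' => ?_⟩
  by_cases h : En c z' ≤ R
  · exact hmin ⟨hz', h⟩
  · exact hz.2.trans (le_of_not_ge h)

theorem En_add (c : E → ℝ) (z f : E → ℝ) (a : ℝ) :
    En c (fun e => z e + a * f e) = En c z + 2 * a * (∑ e, z e * f e / c e) + a ^ 2 * En c f := by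
  unfold En
  rw [Finset.mul_sum, Finset.mul_sum, ← Finset.sum_add_distrib, ← Finset.sum_add_distrib]
  refine Finset.sum_congr rfl fun e _ => ?_
  ring

/-- The unit electrical flow along an edge. -/
theorem exists_elec (s t : E → V) (c : E → ℝ) (hc : ∀ e, 0 < c e) (e0 : E) :
    ∃ y : V → ℝ, ∀ v, dv s t (fun e => c e * (y (s e) - y (t e))) v =
      (if s e0 = v then 1 else 0) - (if t e0 = v then 1 else 0) := by
  classical
  let W : Submodule ℝ (EuclideanSpace ℝ E) :=
    { carrier := {w | ∃ y : V → ℝ, ∀ e, w e = Real.sqrt (c e) * (y (s e) - y (t e))}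
      add_mem' := by
        rintro a b ⟨y, hy⟩ ⟨y', hy'⟩
        refine ⟨fun v => y v + y' v, fun e => ?_⟩
        simp only [PiLp.add_apply, hy, hy']
        ring
      zero_mem' := ⟨fun _ => 0, fun e => by simp⟩
      smul_mem' := by
        rintro r a ⟨y, hy⟩
        refine ⟨fun v => r * y v, fun e => ?_⟩
        simp only [PiLp.smul_apply, hy, smul_eq_mul]
        ring }
  let b : EuclideanSpace ℝ E := EuclideanSpace.single e0 (1 / Real.sqrt (c e0))
  obtain ⟨w, hw, hb⟩ := Submodule.HasOrthogonalProjection.exists_orthogonal (K := W) b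
  rw [Submodule.mem_orthogonal'] at hb
  obtain ⟨y, hy⟩ := hw
  refine ⟨y, fun v => ?_⟩
  have hsq : ∀ e, Real.sqrt (c e) * Real.sqrt (c e) = c e := fun e =>
    Real.mul_self_sqrt (hc e).le
  have hne : Real.sqrt (c e0) ≠ 0 := (Real.sqrt_pos.2 (hc e0)).ne'
  -- test with the indicator potential of `v`
  set u : V → ℝ := fun x => if x = v then 1 else 0 with hu
  set wu : EuclideanSpace ℝ E := WithLp.toLp 2 fun e => Real.sqrt (c e) * (u (s e) - u (t e))
    with hwu
  have h1 := hb wu ⟨u, fun e => by simp [hwu]⟩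
  have h2 : inner ℝ (b - w) wu =
      ∑ e, ((if e = e0 then (1 : ℝ) else 0) - c e * (y (s e) - y (t e))) *
        (u (s e) - u (t e)) := by
    rw [PiLp.inner_apply]
    refine Finset.sum_congr rfl fun e _ => ?_
    simp only [PiLp.sub_apply, hy, b, PiLp.single_apply, hwu, RCLike.inner_apply,
      conj_trivial]
    by_cases he : e = e0
    · subst he
      simp only [if_true]
      have h6 := hsq e
      have h7 : 1 / Real.sqrt (c e) * Real.sqrt (c e) = 1 := by field_simp
      linear_combination (u (s e) - u (t e)) * h7 -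
        (y (s e) - y (t e)) * (u (s e) - u (t e)) * h6
    · simp only [he, if_false]
      have := hsq e
      linear_combination (-(y (s e) - y (t e)) * (u (s e) - u (t e))) * this
  rw [h2, ← sum_mul_dv] at h1
  have h3 : ∑ x, u x * dv s t (fun e => (if e = e0 then (1 : ℝ) else 0) -
      c e * (y (s e) - y (t e))) x =
      dv s t (fun e => (if e = e0 then (1 : ℝ) else 0) - c e * (y (s e) - y (t e))) v := by
    simp [hu]
  rw [h3] at h1
  have h4 : dv s t (fun e => (if e = e0 then (1 : ℝ) else 0) - c e * (y (s e) - y (t e))) v =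
      dv s t (fun e => if e = e0 then (1 : ℝ) else 0) v -
        dv s t (fun e => c e * (y (s e) - y (t e))) v := by
    have := dv_add s t (fun e => if e = e0 then (1 : ℝ) else 0)
      (fun e => (-1) * (c e * (y (s e) - y (t e)))) v
    rw [dv_smul] at this
    have h5 : (fun e => (if e = e0 then (1 : ℝ) else 0) - c e * (y (s e) - y (t e))) =
        fun e => (if e = e0 then (1 : ℝ) else 0) + (-1) * (c e * (y (s e) - y (t e))) := by
      funext e
      ring
    rw [h5, this]
    ring
  rw [h4, dv_single] at h1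
  linarith

/-- M2 : lattice minimum. -/
theorem exists_lattice (s t : E → V) (c : E → ℝ) (hc : ∀ e, 0 < c e) (x : ℝ) (hx0 : 0 ≤ x)
    (hx : ∀ (y : V → ℝ) (e : E), c e * (y (s e) - y (t e)) ^ 2 ≤ x * Q s t c y) :
    ∃ (z : E → ℝ) (q : V → ℤ), (∀ e, |z e| ≤ x) ∧
      ∀ v, dv s t z v = dv s t (fun _ => 1) v + 2 * q v := by
  obtain ⟨z, hz, hmin⟩ := exists_min s t c hc
  choose q hq using hz
  refine ⟨z, q, fun e0 => ?_, hq⟩
  -- the minimiser is orthogonal to flows
  have horth : ∀ f : E → ℝ, (∀ v, dv s t f v = 0) → ∑ e, z e * f e / c e = 0 := by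
    intro f hf
    have h1 : ∀ a : ℝ, 0 ≤ 2 * a * (∑ e, z e * f e / c e) + a ^ 2 * En c f := by
      intro a
      have h2 := hmin (fun e => z e + a * f e) (fun v => ⟨q v, by
        rw [dv_add, dv_smul, hf, hq]; ring⟩)
      rw [En_add] at h2
      linarith
    set S := ∑ e, z e * f e / c e with hS
    have hE : 0 ≤ En c f := Finset.sum_nonneg fun e _ => div_nonneg (sq_nonneg _) (hc e).le
    by_contra hne
    have h3 := h1 (-S / (1 + En c f))
    have hpos : 0 < 1 + En c f := by linarith
    have hS2 : 0 < S ^ 2 := by positivity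
    have h4 : 2 * (-S / (1 + En c f)) * S + (-S / (1 + En c f)) ^ 2 * En c f =
        -(S ^ 2) * (2 + En c f) / (1 + En c f) ^ 2 := by
      field_simp
      ring
    rw [h4] at h3
    have h5 : -(S ^ 2) * (2 + En c f) / (1 + En c f) ^ 2 < 0 := by
      apply div_neg_of_neg_of_pos
      · nlinarith
      · positivity
    linarith
  obtain ⟨y, hy⟩ := exists_elec s t c hc e0
  set g : E → ℝ := fun e => c e * (y (s e) - y (t e)) with hg
  -- ⟨z, g⟩ = z e0 / c e0
  have hzg : ∑ e, z e * g e / c e = z e0 / c e0 := by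
    have h1 := horth (fun e => (if e = e0 then 1 else 0) + (-1) * g e) (fun v => by
      rw [dv_add, dv_smul, dv_single, hy]; ring)
    have h2 : ∑ e, z e * ((if e = e0 then 1 else 0) + (-1) * g e) / c e =
        z e0 / c e0 - ∑ e, z e * g e / c e := by
      have h3 : z e0 / c e0 = ∑ e, if e = e0 then z e / c e else 0 := by simp
      rw [h3, ← Finset.sum_sub_distrib]
      refine Finset.sum_congr rfl fun e _ => ?_
      split_ifs <;> ring
    linarith
  have hgg : En c g = Q s t c y := by
    unfold En Q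
    refine Finset.sum_congr rfl fun e _ => ?_
    have := (hc e).ne'
    simp only [hg]
    field_simp
  have hgg2 : Q s t c y = y (s e0) - y (t e0) := by
    have h1 := sum_mul_dv s t g y
    have h2 : ∑ v, y v * dv s t g v = y (s e0) - y (t e0) := by
      simp_rw [hy, mul_sub, mul_ite, mul_one, mul_zero]
      rw [Finset.sum_sub_distrib]
      simp
    rw [h2] at h1
    rw [h1]
    unfold Q
    refine Finset.sum_congr rfl fun e _ => ?_
    simp only [hg]
    ring
  have hcos : ∀ a : ℝ, (a = 2 ∨ a = -2) → (fun e => z e + a * g e) ∈ Cos s t := by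
    intro a ha v
    have h1 : dv s t (fun e => z e + a * g e) v = dv s t (fun _ => 1) v + 2 * (q v : ℝ) +
        a * ((if s e0 = v then 1 else 0) - (if t e0 = v then 1 else 0)) := by
      rw [dv_add, dv_smul, hy, hq]
    rcases ha with rfl | rfl
    · refine ⟨q v + ((if s e0 = v then 1 else 0) - (if t e0 = v then 1 else 0)), ?_⟩
      rw [h1]
      push_cast
      ring
    · refine ⟨q v - ((if s e0 = v then 1 else 0) - (if t e0 = v then 1 else 0)), ?_⟩
      rw [h1]
      push_cast
      ring
  have hQ : 0 ≤ Q s t c y := Finset.sum_nonneg fun e _ => mul_nonneg (hc e).le (sq_nonneg _)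
  have hp := hmin _ (hcos 2 (Or.inl rfl))
  have hm := hmin _ (hcos (-2) (Or.inr rfl))
  rw [En_add, hzg, hgg] at hp hm
  have hxe := hx y e0
  rw [hgg2] at hxe hQ hp hm
  have hce := hc e0
  set r := y (s e0) - y (t e0) with hr
  -- r ≥ 0, c r ^ 2 ≤ x r, z/c ≤ r
  have h1 : |z e0 / c e0| ≤ r := by
    rw [abs_le]
    constructor <;> linarith
  have h2 : |z e0| ≤ c e0 * r := by
    rw [abs_div, abs_of_pos hce, div_le_iff₀ hce] at h1
    linarith
  rcases hQ.eq_or_lt with h0 | h0
  · rw [← h0] at h2
    have h3 : z e0 = 0 := by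
      rw [mul_zero] at h2
      exact abs_eq_zero.1 (le_antisymm h2 (abs_nonneg _))
    rw [h3, abs_zero]
    exact hx0
  · refine h2.trans ?_
    have h4 : c e0 * r * r ≤ x * r := by nlinarith
    exact le_of_mul_le_mul_right h4 h0

end Pool.Agent.Circ
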