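import Mathlib
import Pool.Agent.Work.MP_974d84_co_circ.Defs

/-!
Grounded Laplacians: definition and quadratic form.
-/

namespace Pool.Agent.Circ

open Finset Matrix

set_option linter.unusedSectionVars false

variable {V E : Type*} [Fintype V] [DecidableEq V] [Fintype E] [DecidableEq E]

/-- Laplacian with the vertices of `S` grounded (deleted): matrix indexed by `{v // v ∉ S}`. -/
noncomputable def lapl (s t : E → V) (c : E → ℝ) (S : Finset V) :
    Matrix {v : V // v ∉ S} {v : V // v ∉ S} ℝ :=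
  fun u v => ∑ e, c e * (((if s e = u.1 then (1:ℝ) else 0) - (if t e = u.1 then 1 else 0)) *
    ((if s e = v.1 then (1:ℝ) else 0) - (if t e = v.1 then 1 else 0)))

/-- Incidence vector of the edge `e`, restricted to the vertices outside `S`. -/
noncomputable def bvec (s t : E → V) (S : Finset V) (e : E) : {v : V // v ∉ S} → ℝ :=
  fun u => (if s e = u.1 then (1:ℝ) else 0) - (if t e = u.1 then 1 else 0)

theorem lapl_apply (s t : E → V) (c : E → ℝ) (S : Finset V) (u v : {v : V // v ∉ S}) :
    lapl s t c S u v = ∑ e, c e * (bvec s t S e u * bvec s t S e v) := rfl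

theorem lapl_mulVec (s t : E → V) (c : E → ℝ) (S : Finset V) (y : {v : V // v ∉ S} → ℝ)
    (u : {v : V // v ∉ S}) :
    (lapl s t c S *ᵥ y) u = ∑ e, c e * (bvec s t S e u * (bvec s t S e ⬝ᵥ y)) := by
  simp only [mulVec, dotProduct, lapl_apply]
  simp only [Finset.sum_mul, Finset.mul_sum]
  rw [Finset.sum_comm]
  refine Finset.sum_congr rfl fun e _ => Finset.sum_congr rfl fun v _ => ?_
  ring

theorem lapl_bilin (s t : E → V) (c : E → ℝ) (S : Finset V) (x y : {v : V // v ∉ S} → ℝ) :
    x ⬝ᵥ (lapl s t c S *ᵥ y) = ∑ e, c e * ((bvec s t S e ⬝ᵥ x) * (bvec s t S e ⬝ᵥ y)) := by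
  have h1 : x ⬝ᵥ (lapl s t c S *ᵥ y) =
      ∑ u, ∑ e, x u * (c e * (bvec s t S e u * (bvec s t S e ⬝ᵥ y))) := by
    unfold dotProduct
    refine Finset.sum_congr rfl fun u _ => ?_
    rw [lapl_mulVec, Finset.mul_sum]
    rfl
  rw [h1, Finset.sum_comm]
  refine Finset.sum_congr rfl fun e _ => ?_
  have h2 : bvec s t S e ⬝ᵥ x = ∑ u, bvec s t S e u * x u := rfl
  rw [h2, Finset.sum_mul, Finset.mul_sum]
  refine Finset.sum_congr rfl fun v _ => ?_
  ring

theorem lapl_quad (s t : E → V) (c : E → ℝ) (S : Finset V) (y : {v : V // v ∉ S} → ℝ) :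
    y ⬝ᵥ (lapl s t c S *ᵥ y) = ∑ e, c e * (bvec s t S e ⬝ᵥ y) ^ 2 := by
  rw [lapl_bilin]
  refine Finset.sum_congr rfl fun e _ => ?_
  ring

theorem lapl_isHermitian (s t : E → V) (c : E → ℝ) (S : Finset V) :
    (lapl s t c S).IsHermitian := by
  ext u v
  simp only [conjTranspose_apply, lapl_apply, star_trivial]
  refine Finset.sum_congr rfl fun e _ => ?_
  ring

theorem lapl_posSemidef (s t : E → V) (c : E → ℝ) (hc : ∀ e, 0 ≤ c e) (S : Finset V) :
    (lapl s t c S).PosSemidef := by
  refine PosSemidef.of_dotProduct_mulVec_nonneg (lapl_isHermitian s t c S) fun x => ?_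
  simp only [star_trivial, lapl_quad]
  exact Finset.sum_nonneg fun e _ => mul_nonneg (hc e) (sq_nonneg _)

/-- A function vanishing on `S` is paired with the incidence vector as expected. -/
theorem bvec_dot (s t : E → V) (S : Finset V) (e : E) (y : V → ℝ) (hy : ∀ v ∈ S, y v = 0) :
    bvec s t S e ⬝ᵥ (fun u => y u.1) = y (s e) - y (t e) := by
  have key : ∀ w : V, ∑ u : {v : V // v ∉ S}, (if w = u.1 then (1:ℝ) else 0) * y u.1 = y w := by
    intro w
    by_cases hw : w ∈ S
    · rw [hy w hw]
      refine Finset.sum_eq_zero fun u _ => ?_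
      have : w ≠ u.1 := fun h => u.2 (h ▸ hw)
      simp [this]
    · rw [Finset.sum_eq_single (⟨w, hw⟩ : {v : V // v ∉ S})]
      · simp
      · intro b _ hb
        have : w ≠ b.1 := fun h => hb (Subtype.ext h.symm)
        simp [this]
      · intro h; exact absurd (Finset.mem_univ _) h
  simp only [dotProduct, bvec, sub_mul, Finset.sum_sub_distrib]
  rw [key, key]

/-- Every vector on the complement of `S` is the restriction of a function vanishing on `S`. -/
theorem bvec_dot' (s t : E → V) (S : Finset V) (e : E) (y : {v : V // v ∉ S} → ℝ) :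
    bvec s t S e ⬝ᵥ y = (if h : s e ∉ S then y ⟨s e, h⟩ else 0) - (if h : t e ∉ S then y ⟨t e, h⟩ else 0) := by
  have h := bvec_dot s t S e (fun v => if h : v ∉ S then y ⟨v, h⟩ else 0) (fun v hv => by simp [hv])
  rw [← h]
  congr 1
  funext u
  have := u.2
  simp [this]

end Pool.Agent.Circ
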