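import Mathlib
import Pool.Agent.Work.MP_974d84_co_circ.Lapl

/-!
M1a and M1b: lower bound for the determinant of the grounded Laplacian through Prim's algorithm
and a layer-cake argument.
-/

namespace Pool.Agent.Circ

open Finset Matrix

set_option linter.unusedSectionVars false

/-- Finite layer cake comparison. -/
theorem layer_cake {ι κ : Type*} (I : Finset ι) (J : Finset κ) (f : ι → ℝ) (g : κ → ℝ) (θ : ℝ)
    (hf : ∀ i ∈ I, 0 ≤ f i) (hg : ∀ j ∈ J, 0 ≤ g j)
    (h : ∀ τ : ℝ, 0 ≤ τ → ((I.filter (fun i => τ < f i)).card : ℝ) ≤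
      θ * ((J.filter (fun j => τ < g j)).card : ℝ)) :
    ∑ i ∈ I, f i ≤ θ * ∑ j ∈ J, g j := by
  classical
  -- a common upper bound
  obtain ⟨B, hB0, hBf, hBg⟩ : ∃ B : ℝ, 0 ≤ B ∧ (∀ i ∈ I, f i ≤ B) ∧ (∀ j ∈ J, g j ≤ B) := by
    refine ⟨∑ i ∈ I, f i + ∑ j ∈ J, g j, ?_, ?_, ?_⟩
    · exact add_nonneg (Finset.sum_nonneg hf) (Finset.sum_nonneg hg)
    · intro i hi
      have h1 := Finset.single_le_sum hf hi
      have h2 := Finset.sum_nonneg hg
      linarith
    · intro j hj
      have h1 := Finset.single_le_sum hg hj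
      have h2 := Finset.sum_nonneg hf
      linarith
  -- the basic integral
  have hmeas : ∀ x : ℝ, Measurable (fun τ : ℝ => if τ < x then (1:ℝ) else 0) := by
    intro x
    exact Measurable.ite measurableSet_Iio measurable_const measurable_const
  have hint : ∀ x : ℝ, MeasureTheory.IntegrableOn (fun τ : ℝ => if τ < x then (1:ℝ) else 0)
      (Set.Ico 0 B) := by
    intro x
    refine MeasureTheory.Measure.integrableOn_of_bounded (M := 1) ?_ ?_ ?_
    · simp
    · exact (hmeas x).aestronglyMeasurable
    · filter_upwards with τ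
      split_ifs <;> simp
  have hval : ∀ x : ℝ, 0 ≤ x → x ≤ B →
      ∫ τ in Set.Ico 0 B, (if τ < x then (1:ℝ) else 0) = x := by
    intro x hx0 hxB
    have h1 : (fun τ : ℝ => if τ < x then (1:ℝ) else 0) = (Set.Iio x).indicator (fun _ => (1:ℝ)) := by
      funext τ
      simp [Set.indicator]
    rw [h1, MeasureTheory.setIntegral_indicator measurableSet_Iio]
    have h2 : Set.Ico 0 B ∩ Set.Iio x = Set.Ico 0 x := by
      ext τ
      simp only [Set.mem_inter_iff, Set.mem_Ico, Set.mem_Iio]
      constructor
      · rintro ⟨⟨h3, _⟩, h4⟩; exact ⟨h3, h4⟩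
      · rintro ⟨h3, h4⟩; exact ⟨⟨h3, lt_of_lt_of_le h4 hxB⟩, h4⟩
    rw [h2]
    simp [hx0]
  have e1 : ∑ i ∈ I, f i = ∫ τ in Set.Ico 0 B, ((I.filter (fun i => τ < f i)).card : ℝ) := by
    have h1 : ∀ τ : ℝ, ((I.filter (fun i => τ < f i)).card : ℝ) =
        ∑ i ∈ I, (if τ < f i then (1:ℝ) else 0) := by
      intro τ
      rw [Finset.card_filter]
      push_cast
      rfl
    simp only [h1]
    rw [MeasureTheory.integral_finsetSum _ (fun i _ => hint (f i))]
    exact Finset.sum_congr rfl fun i hi => (hval (f i) (hf i hi) (hBf i hi)).symm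
  have e2 : ∑ j ∈ J, g j = ∫ τ in Set.Ico 0 B, ((J.filter (fun j => τ < g j)).card : ℝ) := by
    have h1 : ∀ τ : ℝ, ((J.filter (fun j => τ < g j)).card : ℝ) =
        ∑ j ∈ J, (if τ < g j then (1:ℝ) else 0) := by
      intro τ
      rw [Finset.card_filter]
      push_cast
      rfl
    simp only [h1]
    rw [MeasureTheory.integral_finsetSum _ (fun j _ => hint (g j))]
    exact Finset.sum_congr rfl fun j hj => (hval (g j) (hg j hj) (hBg j hj)).symm
  rw [e1, e2, ← MeasureTheory.integral_const_mul]
  refine MeasureTheory.setIntegral_mono_on ?_ ?_ measurableSet_Ico ?_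
  · have h1 : (fun τ : ℝ => ((I.filter (fun i => τ < f i)).card : ℝ)) =
        fun τ => ∑ i ∈ I, (if τ < f i then (1:ℝ) else 0) := by
      funext τ
      rw [Finset.card_filter]
      push_cast
      rfl
    rw [h1]
    exact MeasureTheory.integrable_finsetSum _ (fun i _ => hint (f i))
  · have h1 : (fun τ : ℝ => ((J.filter (fun j => τ < g j)).card : ℝ)) =
        fun τ => ∑ j ∈ J, (if τ < g j then (1:ℝ) else 0) := by
      funext τ
      rw [Finset.card_filter]
      push_cast
      rfl
    have h2 : MeasureTheory.IntegrableOn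
        (fun τ : ℝ => ((J.filter (fun j => τ < g j)).card : ℝ)) (Set.Ico 0 B) := by
      rw [h1]
      exact MeasureTheory.integrable_finsetSum _ (fun j _ => hint (g j))
    exact h2.const_mul θ
  · intro τ hτ
    exact h τ hτ.1

variable {V E : Type*} [Fintype V] [DecidableEq V] [Fintype E] [DecidableEq E]

/-- M1a : one step of Prim's algorithm. -/
theorem det_step (s t : E → V) (c : E → ℝ) (hc : ∀ e, 0 ≤ c e) (S : Finset V) (a : V) (ha : a ∉ S)
    (e : E) (he : (s e ∈ S ∧ t e = a) ∨ (t e ∈ S ∧ s e = a)) :
    c e * (lapl s t c (insert a S)).det ≤ (lapl s t c S).det := by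
  classical
  set a' : {v : V // v ∉ S} := ⟨a, ha⟩ with ha'
  set c' : E → ℝ := Function.update c e 0 with hc'
  have hc'0 : ∀ f, 0 ≤ c' f := by
    intro f
    by_cases hf : f = e
    · subst hf; simp [hc']
    · simp [hc', hf, hc f]
  -- the product of the incidence entries of `e`
  have hprod : ∀ u v : {v : V // v ∉ S}, bvec s t S e u * bvec s t S e v =
      if u = a' ∧ v = a' then 1 else 0 := by
    intro u v
    have hu : ∀ w : {v : V // v ∉ S}, ∀ z : V, z ∈ S → (if z = w.1 then (1:ℝ) else 0) = 0 := by
      intro w z hz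
      have : z ≠ w.1 := fun h => w.2 (h ▸ hz)
      simp [this]
    have ha'' : ∀ w : {v : V // v ∉ S}, (a = w.1) ↔ (w = a') := by
      intro w
      constructor
      · intro h; exact Subtype.ext h.symm
      · intro h; rw [h]
    rcases he with ⟨h1, h2⟩ | ⟨h1, h2⟩
    · simp only [bvec, hu u _ h1, hu v _ h1, h2, ha'' u, ha'' v]
      by_cases hu' : u = a' <;> by_cases hv' : v = a' <;> simp [hu', hv']
    · simp only [bvec, hu u _ h1, hu v _ h1, h2, ha'' u, ha'' v]
      by_cases hu' : u = a' <;> by_cases hv' : v = a' <;> simp [hu', hv']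
  have hentry : ∀ u v : {v : V // v ∉ S}, lapl s t c S u v =
      lapl s t c' S u v + (if u = a' ∧ v = a' then c e else 0) := by
    intro u v
    rw [lapl_apply, lapl_apply, ← Finset.add_sum_erase univ
        (fun f => c f * (bvec s t S f u * bvec s t S f v)) (Finset.mem_univ e),
      ← Finset.add_sum_erase univ (fun f => c' f * (bvec s t S f u * bvec s t S f v))
        (Finset.mem_univ e)]
    have h1 : ∑ x ∈ univ.erase e, c x * (bvec s t S x u * bvec s t S x v) =
        ∑ x ∈ univ.erase e, c' x * (bvec s t S x u * bvec s t S x v) := by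
      refine Finset.sum_congr rfl fun x hx => ?_
      have : x ≠ e := (Finset.mem_erase.mp hx).1
      simp [hc', this]
    have h2 : c' e = 0 := by simp [hc']
    rw [h1, h2, hprod u v]
    by_cases hh : u = a' ∧ v = a' <;> simp [hh, add_comm]
  -- the matrix as an updated row
  have hrow : lapl s t c S = updateRow (lapl s t c' S) a'
      (lapl s t c' S a' + c e • (Pi.single a' (1:ℝ))) := by
    ext u v
    rw [hentry u v]
    by_cases hu : u = a'
    · subst hu
      rw [updateRow_self]
      by_cases hv : v = a'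
      · subst hv; simp
      · simp [hv]
    · rw [updateRow_ne hu]
      simp [hu]
  have hdet1 : (lapl s t c S).det = (lapl s t c' S).det +
      c e * (updateRow (lapl s t c' S) a' (Pi.single a' (1:ℝ))).det := by
    rw [hrow, det_updateRow_add, det_updateRow_smul, updateRow_eq_self]
  have hpos : 0 ≤ (lapl s t c' S).det := (lapl_posSemidef s t c' hc'0 S).det_nonneg
  -- the minor
  have hminor : (updateRow (lapl s t c' S) a' (Pi.single a' (1:ℝ))).det =
      (lapl s t c (insert a S)).det := by
    rw [twoBlockTriangular_det _ (fun i => i ≠ a')]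
    · have h1 : (toSquareBlockProp (updateRow (lapl s t c' S) a' (Pi.single a' (1:ℝ)))
          (fun i => ¬ (i ≠ a'))).det = 1 := by
        let _ : Unique {i : {v : V // v ∉ S} // ¬ (i ≠ a')} :=
          { default := ⟨a', by simp⟩
            uniq := fun x => Subtype.ext (not_not.mp x.2) }
        rw [det_unique]
        have h2 : ((default : {i : {v : V // v ∉ S} // ¬ (i ≠ a')}) : {v : V // v ∉ S}) = a' :=
          not_not.mp (default : {i : {v : V // v ∉ S} // ¬ (i ≠ a')}).2
        change (updateRow (lapl s t c' S) a' (Pi.single a' (1:ℝ)))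
          ((default : {i : {v : V // v ∉ S} // ¬ (i ≠ a')}) : {v : V // v ∉ S})
          ((default : {i : {v : V // v ∉ S} // ¬ (i ≠ a')}) : {v : V // v ∉ S}) = 1
        rw [h2, updateRow_self]
        simp
      rw [h1, mul_one]
      let φ : {v : V // v ∉ insert a S} ≃ {i : {v : V // v ∉ S} // i ≠ a'} :=
        { toFun := fun v => ⟨⟨v.1, fun h => v.2 (Finset.mem_insert_of_mem h)⟩, fun h => by
            have h3 : v.1 = a := congrArg Subtype.val h
            exact v.2 (by rw [h3]; exact Finset.mem_insert_self _ _)⟩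
          invFun := fun i => ⟨i.1.1, fun h => by
            rcases Finset.mem_insert.mp h with h3 | h3
            · exact i.2 (Subtype.ext h3)
            · exact i.1.2 h3⟩
          left_inv := fun v => rfl
          right_inv := fun v => rfl }
      rw [← det_submatrix_equiv_self φ]
      congr 1
      ext u v
      have hu : (φ u).1 ≠ a' := (φ u).2
      change (updateRow (lapl s t c' S) a' (Pi.single a' (1:ℝ))) (φ u).1 (φ v).1 =
        lapl s t c (insert a S) u v
      rw [updateRow_ne hu]
      have h4 := hentry (φ u).1 (φ v).1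
      rw [if_neg (fun h => hu h.1), add_zero] at h4
      rw [← h4]
      rfl
    · intro i hi j hj
      have hi' : i = a' := not_not.mp hi
      subst hi'
      rw [updateRow_self]
      simp [hj]
  rw [hdet1, hminor]
  linarith

/-- A nontrivial cut has `1 ≤ θ * #cut`. -/
theorem one_le_theta_cut (s t : E → V) (θ : ℝ)
    (hθ : ∀ p : V → ℕ, ((univ.image p).card : ℝ) - 1 ≤
      θ * ((univ.filter (fun e => p (s e) ≠ p (t e))).card : ℝ))
    (X : Finset V) (hX : X.Nonempty) (hXu : X ≠ univ) : (1:ℝ) ≤ θ * (cut s t X).card := by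
  have h := hθ (fun v => if v ∈ X then 1 else 0)
  have himg : (univ.image (fun v : V => if v ∈ X then 1 else 0)) = ({0, 1} : Finset ℕ) := by
    obtain ⟨a, ha⟩ := hX
    obtain ⟨b, hb⟩ : ∃ b, b ∉ X := by
      by_contra hcon
      push Not at hcon
      exact hXu (Finset.eq_univ_of_forall hcon)
    ext j
    simp only [mem_image, mem_univ, true_and, mem_insert, mem_singleton]
    constructor
    · rintro ⟨v, rfl⟩
      by_cases hv : v ∈ X <;> simp [hv]
    · rintro (rfl | rfl)
      · exact ⟨b, by simp [hb]⟩
      · exact ⟨a, by simp [ha]⟩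
  have hfil : (univ.filter (fun e => (if s e ∈ X then 1 else 0) ≠ (if t e ∈ X then 1 else 0))) =
      cut s t X := by
    unfold cut
    refine Finset.filter_congr fun e _ => ?_
    by_cases h1 : s e ∈ X <;> by_cases h2 : t e ∈ X <;> simp [h1, h2]
  rw [himg] at h
  rw [hfil] at h
  norm_num at h
  linarith

/-- Prim's chain, as an infinite sequence (only the first `card V` terms matter). -/
theorem prim_chain [Nonempty E] (s t : E → V) (lam : E → ℝ)
    (hconn : ∀ X : Finset V, X.Nonempty → X ≠ univ → (cut s t X).Nonempty) (v0 : V) :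
    ∃ (S : ℕ → Finset V) (a : ℕ → V) (d : ℕ → E), S 0 = {v0} ∧
      (∀ i, i + 1 < Fintype.card V → a i ∉ S i ∧ S (i+1) = insert (a i) (S i) ∧
        ((s (d i) ∈ S i ∧ t (d i) = a i) ∨ (t (d i) ∈ S i ∧ s (d i) = a i)) ∧
        ∀ f ∈ cut s t (S i), lam (d i) ≤ lam f) ∧
      (∀ i, i < Fintype.card V → (S i).card = i + 1) := by
  classical
  have hsel : ∀ X : Finset V, ∃ a : V, ∃ d : E, (X.Nonempty → X ≠ univ → a ∉ X ∧
      ((s d ∈ X ∧ t d = a) ∨ (t d ∈ X ∧ s d = a)) ∧ ∀ f ∈ cut s t X, lam d ≤ lam f) := by
    intro X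
    by_cases hX : X.Nonempty ∧ X ≠ univ
    · obtain ⟨d, hd, hmin⟩ := Finset.exists_min_image (cut s t X) lam (hconn X hX.1 hX.2)
      have hd' : ¬ (s d ∈ X ↔ t d ∈ X) := by
        simpa [cut] using hd
      by_cases h1 : s d ∈ X
      · have h2 : t d ∉ X := fun h => hd' ⟨fun _ => h, fun _ => h1⟩
        exact ⟨t d, d, fun _ _ => ⟨h2, Or.inl ⟨h1, rfl⟩, hmin⟩⟩
      · have h2 : t d ∈ X := by
          by_contra h
          exact hd' ⟨fun h' => absurd h' h1, fun h' => absurd h' h⟩
        exact ⟨s d, d, fun _ _ => ⟨h1, Or.inr ⟨h2, rfl⟩, hmin⟩⟩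
    · exact ⟨v0, Classical.choice inferInstance, fun h1 h2 => absurd ⟨h1, h2⟩ hX⟩
  choose A D hAD using hsel
  let S : ℕ → Finset V := fun i => Nat.rec {v0} (fun _ X => insert (A X) X) i
  have hS0 : S 0 = {v0} := rfl
  have hS1 : ∀ i, S (i+1) = insert (A (S i)) (S i) := fun i => rfl
  have hne : ∀ i, (S i).Nonempty := by
    intro i
    induction i with
    | zero => rw [hS0]; exact Finset.singleton_nonempty _
    | succ i ih => rw [hS1]; exact Finset.insert_nonempty _ _
  have hcard : ∀ i, i < Fintype.card V → (S i).card = i + 1 := by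
    intro i
    induction i with
    | zero => intro _; rw [hS0]; simp
    | succ i ih =>
      intro hi
      have h1 := ih (by omega)
      have h2 : S i ≠ univ := by
        intro h
        rw [h, Finset.card_univ] at h1
        omega
      have h3 := (hAD (S i) (hne i) h2).1
      rw [hS1, Finset.card_insert_of_notMem h3, h1]
  refine ⟨S, fun i => A (S i), fun i => D (S i), hS0, ?_, hcard⟩
  intro i hi
  have h1 := hcard i (by omega)
  have h2 : S i ≠ univ := by
    intro h
    rw [h, Finset.card_univ] at h1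
    omega
  obtain ⟨h3, h4, h5⟩ := hAD (S i) (hne i) h2
  exact ⟨h3, hS1 i, h4, h5⟩

/-- M1b : lower bound for the determinant (general form). `θ` is an upper bound for
`(number of classes - 1) / (number of crossing edges)` over all partitions of `V`. -/
theorem det_lower_theta' (s t : E → V) (θ : ℝ) (hV : 1 < Fintype.card V)
    (hθ : ∀ p : V → ℕ, ((univ.image p).card : ℝ) - 1 ≤
      θ * ((univ.filter (fun e => p (s e) ≠ p (t e))).card : ℝ))
    (c : E → ℝ) (hc : ∀ e, 0 < c e) (hc1 : ∀ e, c e ≤ 1) (v0 : V) :
    θ * ∑ e, Real.log (c e) ≤ Real.log (lapl s t c {v0}).det := by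
  classical
  -- connectivity
  have hconn : ∀ X : Finset V, X.Nonempty → X ≠ univ → (cut s t X).Nonempty := by
    intro X h1 h2
    have h3 := one_le_theta_cut s t θ hθ X h1 h2
    rw [Finset.nonempty_iff_ne_empty]
    intro h4
    rw [h4] at h3
    norm_num at h3
  have hne : ({v0} : Finset V) ≠ univ := by
    intro h
    have h1 : ({v0} : Finset V).card = Fintype.card V := by rw [h, Finset.card_univ]
    rw [Finset.card_singleton] at h1
    omega
  have hθ0 : 0 ≤ θ := by
    have h3 := one_le_theta_cut s t θ hθ {v0} (Finset.singleton_nonempty _) hne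
    by_contra h
    push Not at h
    have : θ * (cut s t {v0}).card ≤ 0 :=
      mul_nonpos_of_nonpos_of_nonneg h.le (Nat.cast_nonneg _)
    linarith
  have hEne : Nonempty E := by
    obtain ⟨e, _⟩ := hconn {v0} (Finset.singleton_nonempty _) hne
    exact ⟨e⟩
  set lam : E → ℝ := fun e => - Real.log (c e) with hlam
  have hlam0 : ∀ e, 0 ≤ lam e := by
    intro e
    have := Real.log_nonpos (hc e).le (hc1 e)
    simp only [hlam]; linarith
  obtain ⟨S, a, d, hS0, hstep, hcard⟩ := prim_chain s t lam hconn v0
  obtain ⟨m, hm⟩ : ∃ m, Fintype.card V = m + 1 := ⟨Fintype.card V - 1, by omega⟩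
  have hstep' : ∀ i, i < m → a i ∉ S i ∧ S (i+1) = insert (a i) (S i) ∧
        ((s (d i) ∈ S i ∧ t (d i) = a i) ∨ (t (d i) ∈ S i ∧ s (d i) = a i)) ∧
        ∀ f ∈ cut s t (S i), lam (d i) ≤ lam f := fun i hi => hstep i (by omega)
  -- determinants along the chain
  have hSm : S m = univ := by
    apply Finset.eq_univ_of_card
    rw [hcard m (by omega), hm]
  have hdet : ∀ j, j ≤ m → ∏ i ∈ Finset.Ico j m, c (d i) ≤ (lapl s t c (S j)).det := by
    intro j hj
    induction hj using Nat.decreasingInduction with
    | self =>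
      have hall : ∀ v, v ∈ S m := fun v => by rw [hSm]; exact Finset.mem_univ _
      have : IsEmpty {v : V // v ∉ S m} := ⟨fun v => v.2 (hall v.1)⟩
      simp [det_isEmpty]
    | of_succ k hk ih =>
      obtain ⟨h1, h2, h3, _⟩ := hstep' k hk
      have h4 := det_step s t c (fun e => (hc e).le) (S k) (a k) h1 (d k) h3
      rw [← h2] at h4
      rw [Finset.prod_eq_prod_Ico_succ_bot hk]
      exact le_trans (mul_le_mul_of_nonneg_left ih (hc _).le) h4
  have hdet0 := hdet 0 (Nat.zero_le _)
  rw [hS0] at hdet0
  have hprod0 : 0 < ∏ i ∈ Finset.Ico 0 m, c (d i) := Finset.prod_pos fun i _ => hc _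
  have hlog : - ∑ i ∈ Finset.Ico 0 m, lam (d i) ≤ Real.log (lapl s t c {v0}).det := by
    have h1 := Real.log_le_log hprod0 hdet0
    rw [Real.log_prod (fun i _ => (hc _).ne')] at h1
    simpa [hlam] using h1
  -- layer cake
  have hlc : ∑ i ∈ Finset.Ico 0 m, lam (d i) ≤ θ * ∑ e, lam e := by
    refine layer_cake _ _ _ _ _ (fun i _ => hlam0 _) (fun e _ => hlam0 _) ?_
    intro τ hτ
    set N : Finset ℕ := (Finset.Ico 0 m).filter (fun i => τ < lam (d i)) with hN
    let r : V → ℕ := fun v => (N.filter (fun i => v ∉ S i)).card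
    have hmono : ∀ i j, i ≤ j → j ≤ m → S i ⊆ S j := by
      intro i j hij
      induction hij with
      | refl => intro _; exact Finset.Subset.refl _
      | step h ih =>
        rename_i k
        intro hk
        have h2 := (hstep' k (by omega)).2.1
        refine (ih (by omega)).trans ?_
        rw [h2]
        exact Finset.subset_insert _ _
    -- values of r
    have hr0 : r v0 = 0 := by
      simp only [r, Finset.card_eq_zero, Finset.filter_eq_empty_iff]
      intro i hi h
      have hi' : i < m := by
        have := (Finset.mem_filter.mp hi).1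
        exact (Finset.mem_Ico.mp this).2
      exact h (hmono 0 i (Nat.zero_le _) hi'.le (by rw [hS0]; exact Finset.mem_singleton_self _))
    have hra : ∀ j, j < m → r (a j) = (N.filter (fun i => i ≤ j)).card := by
      intro j hj
      simp only [r]
      congr 1
      refine Finset.filter_congr fun i hi => ?_
      have hi' : i < m := by
        have := (Finset.mem_filter.mp hi).1
        exact (Finset.mem_Ico.mp this).2
      constructor
      · intro h
        by_contra h'
        push Not at h'
        apply h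
        have h2 := (hstep' j hj).2.1
        exact hmono (j+1) i h' hi'.le (by rw [h2]; exact Finset.mem_insert_self _ _)
      · intro h h'
        exact (hstep' j hj).1 (hmono i j h hj.le h')
    have hstrict : ∀ i ∈ N, ∀ j ∈ N, i < j → r (a i) < r (a j) := by
      intro i hi j hj hij
      have hi' : i < m := (Finset.mem_Ico.mp (Finset.mem_filter.mp hi).1).2
      have hj' : j < m := (Finset.mem_Ico.mp (Finset.mem_filter.mp hj).1).2
      rw [hra i hi', hra j hj']
      apply Finset.card_lt_card
      rw [Finset.ssubset_iff_of_subset]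
      · exact ⟨j, by simp [hj], by simp [hij]⟩
      · intro k hk
        rw [Finset.mem_filter] at hk ⊢
        exact ⟨hk.1, by omega⟩
    have hpos : ∀ i ∈ N, 0 < r (a i) := by
      intro i hi
      have hi' : i < m := (Finset.mem_Ico.mp (Finset.mem_filter.mp hi).1).2
      rw [hra i hi', Finset.card_pos]
      exact ⟨i, by simp [hi]⟩
    have himg : N.card + 1 ≤ (univ.image r).card := by
      have hinj : Set.InjOn (fun i => r (a i)) (N : Set ℕ) := by
        intro i hi j hj hij
        by_contra hne'
        rcases lt_or_gt_of_ne hne' with h | h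
        · exact absurd hij (hstrict i hi j hj h).ne
        · exact absurd hij (hstrict j hj i hi h).ne'
      have h0 : (0:ℕ) ∉ N.image (fun i => r (a i)) := by
        intro h
        obtain ⟨i, hi, h1⟩ := Finset.mem_image.mp h
        exact absurd h1 (hpos i hi).ne'
      have h1 : insert 0 (N.image (fun i => r (a i))) ⊆ univ.image r := by
        intro x hx
        rcases Finset.mem_insert.mp hx with h | h
        · rw [h, ← hr0]; exact Finset.mem_image_of_mem _ (Finset.mem_univ _)
        · obtain ⟨i, _, h1⟩ := Finset.mem_image.mp h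
          rw [← h1]; exact Finset.mem_image_of_mem _ (Finset.mem_univ _)
      have h2 := Finset.card_le_card h1
      rw [Finset.card_insert_of_notMem h0, Finset.card_image_of_injOn hinj] at h2
      exact h2
    have hcross : (univ.filter (fun e => r (s e) ≠ r (t e))) ⊆ univ.filter (fun e => τ < lam e) := by
      intro e he
      rw [Finset.mem_filter] at he ⊢
      refine ⟨Finset.mem_univ _, ?_⟩
      -- a general fact : if r u < r v then some `i ∈ N` has u ∈ S i, v ∉ S i
      have hlt : ∀ u v : V, r u < r v → ∃ i ∈ N, u ∈ S i ∧ v ∉ S i := by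
        intro u v huv
        by_contra hcon
        push Not at hcon
        have : N.filter (fun i => v ∉ S i) ⊆ N.filter (fun i => u ∉ S i) := by
          intro i hi
          rw [Finset.mem_filter] at hi ⊢
          exact ⟨hi.1, fun h => hi.2 (hcon i hi.1 h)⟩
        exact absurd (Finset.card_le_card this) (not_le.mpr huv)
      rcases lt_or_gt_of_ne he.2 with h | h
      · obtain ⟨i, hi, h1, h2⟩ := hlt _ _ h
        have hi' : i < m := (Finset.mem_Ico.mp (Finset.mem_filter.mp hi).1).2
        have h3 := (hstep' i hi').2.2.2 e (by simp [cut, h1, h2])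
        exact lt_of_lt_of_le (Finset.mem_filter.mp hi).2 h3
      · obtain ⟨i, hi, h1, h2⟩ := hlt _ _ h
        have hi' : i < m := (Finset.mem_Ico.mp (Finset.mem_filter.mp hi).1).2
        have h3 := (hstep' i hi').2.2.2 e (by simp [cut, h1, h2])
        exact lt_of_lt_of_le (Finset.mem_filter.mp hi).2 h3
    have h1 := hθ r
    have h2 : ((N.card : ℕ) : ℝ) + 1 ≤ ((univ.image r).card : ℝ) := by exact_mod_cast himg
    have h3 : ((univ.filter (fun e => r (s e) ≠ r (t e))).card : ℝ) ≤
        ((univ.filter (fun e => τ < lam e)).card : ℝ) := by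
      exact_mod_cast Finset.card_le_card hcross
    have h4 := mul_le_mul_of_nonneg_left h3 hθ0
    linarith
  have hsum : ∑ e, lam e = - ∑ e, Real.log (c e) := by
    simp [hlam]
  rw [hsum] at hlc
  linarith

/-- The same with a possibly trivial vertex set. -/
theorem det_lower_theta (s t : E → V) (θ : ℝ) (hθ0 : 0 ≤ θ)
    (hθ : ∀ p : V → ℕ, ((univ.image p).card : ℝ) - 1 ≤
      θ * ((univ.filter (fun e => p (s e) ≠ p (t e))).card : ℝ))
    (c : E → ℝ) (hc : ∀ e, 0 < c e) (hc1 : ∀ e, c e ≤ 1) (v0 : V) :
    θ * ∑ e, Real.log (c e) ≤ Real.log (lapl s t c {v0}).det := by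
  by_cases hV : 1 < Fintype.card V
  · exact det_lower_theta' s t θ hV hθ c hc hc1 v0
  · have hsub : ∀ v : V, v = v0 := by
      intro v
      have h1 : Fintype.card V ≤ 1 := by omega
      exact (Fintype.card_le_one_iff.mp h1) v v0
    have : IsEmpty {v : V // v ∉ ({v0} : Finset V)} :=
      ⟨fun v => v.2 (Finset.mem_singleton.mpr (hsub v.1))⟩
    rw [det_isEmpty, Real.log_one]
    refine mul_nonpos_of_nonneg_of_nonpos hθ0 ?_
    exact Finset.sum_nonpos fun e _ => Real.log_nonpos (hc e).le (hc1 e)

end Pool.Agent.Circ
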