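import Mathlib
import Pool.Agent.Work.MP_974d84_co_circ.Lapl

/-!
M1c: weights with all leverages at most `x` (from the determinant lower bound M1b).
-/

namespace Pool.Agent.Circ

open Finset Matrix

set_option linter.unusedSectionVars false

variable {V E : Type*} [Fintype V] [DecidableEq V] [Fintype E] [DecidableEq E]

theorem lapl_posDef (s t : E → V)
    (hcut : ∀ X : Finset V, X.Nonempty → X ≠ univ → (cut s t X).Nonempty)
    (c : E → ℝ) (hc : ∀ e, 0 < c e) (v0 : V) : (lapl s t c {v0}).PosDef := by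
  refine PosDef.of_dotProduct_mulVec_pos (lapl_isHermitian s t c {v0}) fun x hx => ?_
  simp only [star_trivial, lapl_quad]
  have hnn : ∀ e ∈ (univ : Finset E), 0 ≤ c e * (bvec s t {v0} e ⬝ᵥ x) ^ 2 :=
    fun e _ => mul_nonneg (hc e).le (sq_nonneg _)
  refine lt_of_le_of_ne (Finset.sum_nonneg hnn) fun h0 => hx ?_
  have hz := (Finset.sum_eq_zero_iff_of_nonneg hnn).1 h0.symm
  set y : V → ℝ := fun v => if h : v ∉ ({v0} : Finset V) then x ⟨v, h⟩ else 0 with hy
  have hyS : ∀ v ∈ ({v0} : Finset V), y v = 0 := fun v hv => by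
    simp only [hy]
    rw [dif_neg (not_not.2 hv)]
  have hyx : (fun u : {v : V // v ∉ ({v0} : Finset V)} => y u.1) = x := by
    funext u
    have := u.2
    simp only [hy, dif_pos this]
  have hst : ∀ e, y (s e) = y (t e) := by
    intro e
    have h1 := hz e (Finset.mem_univ _)
    have h2 : (bvec s t {v0} e ⬝ᵥ x) = 0 := by
      rcases mul_eq_zero.1 h1 with h | h
      · exact absurd h (hc e).ne'
      · exact pow_eq_zero_iff (two_ne_zero) |>.1 h
    rw [← hyx, bvec_dot s t {v0} e y hyS] at h2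
    linarith
  have hall : univ.filter (fun v => y v = 0) = univ := by
    by_contra hne
    obtain ⟨e, he⟩ := hcut (univ.filter (fun v => y v = 0))
      ⟨v0, by simp [hyS v0 (by simp)]⟩ hne
    simp only [cut, mem_filter, mem_univ, true_and] at he
    exact he (by rw [hst e])
  rw [← hyx]
  funext u
  have : u.1 ∈ univ.filter (fun v => y v = 0) := by rw [hall]; exact Finset.mem_univ _
  simpa using this

/-- Determinant of the grounded Laplacian after decreasing one weight by `τ`. -/
theorem det_decrease (s t : E → V) (c : E → ℝ) (v0 : V) (e0 : E) (τ : ℝ)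
    (hdet : IsUnit (lapl s t c {v0}).det) :
    (lapl s t (fun e => c e - if e = e0 then τ else 0) {v0}).det =
      (lapl s t c {v0}).det *
        (1 - τ * (bvec s t {v0} e0 ⬝ᵥ ((lapl s t c {v0})⁻¹ *ᵥ bvec s t {v0} e0))) := by
  have h1 : lapl s t (fun e => c e - if e = e0 then τ else 0) {v0} =
      lapl s t c {v0} + replicateCol Unit ((-τ) • bvec s t {v0} e0) *
        replicateRow Unit (bvec s t {v0} e0) := by
    ext u v
    simp only [Matrix.add_apply, lapl_apply, Matrix.mul_apply, replicateCol_apply,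
      replicateRow_apply, Finset.univ_unique, Finset.sum_singleton, Pi.smul_apply, smul_eq_mul,
      sub_mul, ite_mul, zero_mul, Finset.sum_sub_distrib, Finset.sum_ite_eq', Finset.mem_univ,
      if_true]
    ring
  rw [h1, det_add_replicateCol_mul_replicateRow hdet]
  congr 1
  rw [det_unique, Matrix.add_apply, Matrix.one_apply_eq]
  have h2 : (replicateRow Unit (bvec s t {v0} e0) * (lapl s t c {v0})⁻¹ *
      replicateCol Unit ((-τ) • bvec s t {v0} e0)) default default =
      bvec s t {v0} e0 ⬝ᵥ ((lapl s t c {v0})⁻¹ *ᵥ ((-τ) • bvec s t {v0} e0)) := by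
    rw [Matrix.mul_assoc]
    simp only [Matrix.mul_apply, replicateRow_apply, replicateCol_apply, dotProduct, mulVec]
  rw [h2, mulVec_smul, dotProduct_smul, smul_eq_mul]
  ring

/-- Cauchy-Schwarz for the form `Q`. -/
theorem leverage_bound (s t : E → V)
    (hcut : ∀ X : Finset V, X.Nonempty → X ≠ univ → (cut s t X).Nonempty)
    (c : E → ℝ) (hc : ∀ e, 0 < c e) (v0 : V) (e : E) (y : V → ℝ) :
    (y (s e) - y (t e)) ^ 2 ≤
      (bvec s t {v0} e ⬝ᵥ ((lapl s t c {v0})⁻¹ *ᵥ bvec s t {v0} e)) * Q s t c y := by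
  set L := lapl s t c {v0} with hL
  set b := bvec s t {v0} e with hb
  have hpd : L.PosDef := lapl_posDef s t hcut c hc v0
  have hdet : IsUnit L.det := isUnit_iff_ne_zero.2 hpd.det_pos.ne'
  set u := L⁻¹ *ᵥ b with hu
  have hLu : L *ᵥ u = b := by
    rw [hu, mulVec_mulVec, mul_nonsing_inv _ hdet, one_mulVec]
  set y' : {v : V // v ∉ ({v0} : Finset V)} → ℝ := fun w => y w.1 - y v0 with hy'
  have hby : ∀ e', bvec s t {v0} e' ⬝ᵥ y' = y (s e') - y (t e') := by
    intro e'
    have := bvec_dot s t {v0} e' (fun v => y v - y v0) (fun v hv => by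
      rw [Finset.mem_singleton] at hv; rw [hv]; ring)
    rw [this]; ring
  have hQ : y' ⬝ᵥ (L *ᵥ y') = Q s t c y := by
    rw [hL, lapl_quad, Q]
    exact Finset.sum_congr rfl fun e' _ => by rw [hby]
  have hsym : u ⬝ᵥ (L *ᵥ y') = y' ⬝ᵥ (L *ᵥ u) := by
    rw [hL, lapl_bilin, lapl_bilin]
    exact Finset.sum_congr rfl fun e' _ => by ring
  have key : ∀ r : ℝ, 0 ≤ (b ⬝ᵥ u) * (r * r) + (-2 * (b ⬝ᵥ y')) * r + Q s t c y := by
    intro r
    have h0 : 0 ≤ (y' - r • u) ⬝ᵥ (L *ᵥ (y' - r • u)) := by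
      have := hpd.posSemidef.dotProduct_mulVec_nonneg (y' - r • u)
      simpa using this
    have h1 : (y' - r • u) ⬝ᵥ (L *ᵥ (y' - r • u)) =
        (b ⬝ᵥ u) * (r * r) + (-2 * (b ⬝ᵥ y')) * r + Q s t c y := by
      rw [mulVec_sub, mulVec_smul, sub_dotProduct, dotProduct_sub, dotProduct_sub,
        smul_dotProduct, smul_dotProduct, dotProduct_smul, hQ, hsym, hLu, dotProduct_smul,
        dotProduct_comm u b, dotProduct_comm y' b]
      simp only [smul_eq_mul]
      ring
    rw [h1] at h0; exact h0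
  have hd := discrim_le_zero key
  rw [discrim] at hd
  rw [← hby e]
  nlinarith [hd]

theorem exists_weights_of (s t : E → V) (x0 : ℝ) (hx0 : 0 ≤ x0)
    (hcut : ∀ X : Finset V, X.Nonempty → X ≠ univ → (cut s t X).Nonempty)
    (v0 : V)
    (hlow : ∀ c : E → ℝ, (∀ e, 0 < c e) → (∀ e, c e ≤ 1) →
      x0 * ∑ e, Real.log (c e) ≤ Real.log (lapl s t c {v0}).det)
    (x : ℝ) (hx : x0 < x) :
    ∃ c : E → ℝ, (∀ e, 0 < c e) ∧
      ∀ (y : V → ℝ) (e : E), c e * (y (s e) - y (t e)) ^ 2 ≤ x * Q s t c y := by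
  have hx' : 0 < x - x0 := by linarith
  set D : (E → ℝ) → ℝ := fun c => (lapl s t c {v0}).det with hD
  set Φ : (E → ℝ) → ℝ := fun c => Real.log (D c) - x * ∑ e, Real.log (c e) with hΦ
  have hDpos : ∀ c : E → ℝ, (∀ e, 0 < c e) → 0 < D c := fun c hc =>
    (lapl_posDef s t hcut c hc v0).det_pos
  set M : ℝ := Φ (fun _ => 1) with hM
  set δ : ℝ := Real.exp (-((|M| + 1) / (x - x0))) with hδ
  have hδ0 : 0 < δ := Real.exp_pos _
  have hδ1 : δ ≤ 1 := by
    rw [hδ]
    apply Real.exp_le_one_iff.2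
    have : 0 ≤ (|M| + 1) / (x - x0) := div_nonneg (by positivity) hx'.le
    linarith
  -- lower bound for Φ
  have hΦlow : ∀ c : E → ℝ, (∀ e, 0 < c e) → (∀ e, c e ≤ 1) → ∀ e,
      (x - x0) * (-Real.log (c e)) ≤ Φ c := by
    intro c h0 h1 e
    have h2 := hlow c h0 h1
    have h3 : ∑ e', Real.log (c e') ≤ Real.log (c e) := by
      rw [← Finset.add_sum_erase univ (fun e' => Real.log (c e')) (Finset.mem_univ e)]
      have : ∑ e' ∈ univ.erase e, Real.log (c e') ≤ 0 :=
        Finset.sum_nonpos fun e' _ => Real.log_nonpos (h0 e').le (h1 e')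
      linarith
    have h4 : Φ c = Real.log (D c) - x * ∑ e, Real.log (c e) := rfl
    rw [h4]
    have h5 : (x - x0) * ∑ e', Real.log (c e') ≤ (x - x0) * Real.log (c e) :=
      mul_le_mul_of_nonneg_left h3 hx'.le
    have h6 : x0 * ∑ e, Real.log (c e) ≤ Real.log (D c) := h2
    nlinarith
  -- compactness
  have hKc : IsCompact (Set.Icc (fun _ : E => δ) (fun _ => (1:ℝ))) := isCompact_Icc
  have hcont : ContinuousOn Φ (Set.Icc (fun _ : E => δ) (fun _ => (1:ℝ))) := by
    have hDc : Continuous D := by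
      rw [hD]
      refine Continuous.matrix_det ?_
      refine continuous_pi fun u => continuous_pi fun v => ?_
      simp only [lapl]
      fun_prop
    refine ContinuousOn.sub ?_ ?_
    · refine ContinuousOn.log hDc.continuousOn fun c hc => (hDpos c fun e => ?_).ne'
      exact lt_of_lt_of_le hδ0 (hc.1 e)
    · refine ContinuousOn.mul continuousOn_const ?_
      refine continuousOn_finsetSum _ fun e _ => ?_
      refine ContinuousOn.log (continuous_apply e).continuousOn fun c hc => ?_
      exact (lt_of_lt_of_le hδ0 (hc.1 e)).ne'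
  obtain ⟨c, hcK, hmin⟩ := hKc.exists_isMinOn
    ⟨fun _ => 1, ⟨fun _ => hδ1, fun _ => le_refl _⟩⟩ hcont
  have hc0 : ∀ e, 0 < c e := fun e => lt_of_lt_of_le hδ0 (hcK.1 e)
  have hc1 : ∀ e, c e ≤ 1 := fun e => hcK.2 e
  have hcM : Φ c ≤ M := hmin ⟨fun _ => hδ1, fun _ => le_refl _⟩
  have hglob : ∀ c' : E → ℝ, (∀ e, 0 < c' e) → (∀ e, c' e ≤ 1) → Φ c ≤ Φ c' := by
    intro c' h0 h1
    by_cases hK : ∀ e, δ ≤ c' e
    · exact hmin ⟨hK, h1⟩
    · push Not at hK
      obtain ⟨e, he⟩ := hK
      have h2 := hΦlow c' h0 h1 e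
      have h3 : Real.log (c' e) < -((|M| + 1) / (x - x0)) := by
        rw [← Real.log_exp (-((|M| + 1) / (x - x0)))]
        exact Real.log_lt_log (h0 e) he
      have h4 : (x - x0) * ((|M| + 1) / (x - x0)) = |M| + 1 := by
        field_simp
      have h5 : (x - x0) * ((|M| + 1) / (x - x0)) ≤ (x - x0) * (-Real.log (c' e)) :=
        mul_le_mul_of_nonneg_left (by linarith) hx'.le
      have h6 := le_abs_self M
      linarith
  refine ⟨c, hc0, fun y e => ?_⟩
  have hpd : (lapl s t c {v0}).PosDef := lapl_posDef s t hcut c hc0 v0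
  have hdet : IsUnit (lapl s t c {v0}).det := isUnit_iff_ne_zero.2 hpd.det_pos.ne'
  set R : ℝ := bvec s t {v0} e ⬝ᵥ ((lapl s t c {v0})⁻¹ *ᵥ bvec s t {v0} e) with hR
  -- variation of the weight of e
  have hvar : ∀ τ : ℝ, 0 < τ → τ < 1 → c e * R ≤ x / (1 - τ) := by
    intro τ h0 h1
    set c' : E → ℝ := fun e' => c e' - if e' = e then τ * c e else 0 with hc'
    have hc'0 : ∀ e', 0 < c' e' := by
      intro e'
      by_cases h : e' = e
      · subst h; simp only [hc', if_true]; nlinarith [hc0 e']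
      · simp only [hc', if_neg h]; linarith [hc0 e']
    have hc'1 : ∀ e', c' e' ≤ 1 := by
      intro e'
      by_cases h : e' = e
      · subst h; simp only [hc', if_true]; nlinarith [hc0 e', hc1 e']
      · simp only [hc', if_neg h]; linarith [hc1 e']
    have h2 := hglob c' hc'0 hc'1
    have h3 : D c' = D c * (1 - τ * c e * R) := det_decrease s t c v0 e (τ * c e) hdet
    have h4 : 0 < 1 - τ * c e * R := by
      have := hDpos c' hc'0
      rw [h3] at this
      exact (pos_iff_pos_of_mul_pos this).1 (hDpos c hc0)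
    have h5 : ∑ e', Real.log (c' e') = ∑ e', Real.log (c e') + Real.log (1 - τ) := by
      rw [← Finset.add_sum_erase univ (fun e' => Real.log (c' e')) (Finset.mem_univ e),
        ← Finset.add_sum_erase univ (fun e' => Real.log (c e')) (Finset.mem_univ e)]
      have h6 : ∑ e' ∈ univ.erase e, Real.log (c' e') = ∑ e' ∈ univ.erase e, Real.log (c e') := by
        refine Finset.sum_congr rfl fun e' he' => ?_
        have : e' ≠ e := Finset.ne_of_mem_erase he'
        simp only [hc', if_neg this, sub_zero]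
      have h7 : c' e = c e * (1 - τ) := by simp only [hc', if_true]; ring
      rw [h6, h7, Real.log_mul (hc0 e).ne' (by linarith)]
      ring
    have h8 : Φ c' = Φ c + Real.log (1 - τ * c e * R) - x * Real.log (1 - τ) := by
      simp only [hΦ]
      rw [h3, h5, Real.log_mul (hDpos c hc0).ne' h4.ne']
      ring
    have h9 : x * Real.log (1 - τ) ≤ Real.log (1 - τ * c e * R) := by linarith
    have h10 : Real.log (1 - τ * c e * R) ≤ -(τ * c e * R) := by
      have := Real.log_le_sub_one_of_pos h4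
      linarith
    have h11 : -(τ / (1 - τ)) ≤ Real.log (1 - τ) := by
      have := Real.one_sub_inv_le_log_of_pos (show (0:ℝ) < 1 - τ by linarith)
      have h12 : 1 - (1 - τ)⁻¹ = -(τ / (1 - τ)) := by
        have : (1 - τ) ≠ 0 := by linarith
        field_simp
        ring
      linarith
    have hxpos : 0 < x := by linarith
    have h13 : x * (-(τ / (1 - τ))) ≤ x * Real.log (1 - τ) :=
      mul_le_mul_of_nonneg_left h11 hxpos.le
    have h14 : τ * (c e * R) ≤ τ * (x / (1 - τ)) := by
      have : x * (-(τ / (1 - τ))) = -(τ * (x / (1 - τ))) := by ring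
      nlinarith
    exact le_of_mul_le_mul_left h14 h0
  have hlev : c e * R ≤ x := by
    have hlim : Filter.Tendsto (fun τ : ℝ => x / (1 - τ)) (nhdsWithin 0 (Set.Ioi 0)) (nhds (x / (1 - 0))) := by
      refine Filter.Tendsto.mono_left ?_ nhdsWithin_le_nhds
      refine Filter.Tendsto.div tendsto_const_nhds ?_ (by norm_num)
      exact (tendsto_const_nhds.sub Filter.tendsto_id)
    have hev : ∀ᶠ τ in nhdsWithin (0:ℝ) (Set.Ioi 0), c e * R ≤ x / (1 - τ) := by
      filter_upwards [Ioo_mem_nhdsGT (show (0:ℝ) < 1 by norm_num)] with τ hτ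
      exact hvar τ hτ.1 hτ.2
    have := ge_of_tendsto hlim hev
    simpa using this
  have hQ : 0 ≤ Q s t c y := Finset.sum_nonneg fun e' _ => mul_nonneg (hc0 e').le (sq_nonneg _)
  calc c e * (y (s e) - y (t e)) ^ 2 ≤ c e * (R * Q s t c y) :=
        mul_le_mul_of_nonneg_left (leverage_bound s t hcut c hc0 v0 e y) (hc0 e).le
    _ = (c e * R) * Q s t c y := by ring
    _ ≤ x * Q s t c y := mul_le_mul_of_nonneg_right hlev hQ

end Pool.Agent.Circ
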