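import Mathlib
import Pool.Agent.Work.MP_974d84_co_circ.M1c

/-!
M1c: weights with all leverages at most `x`, general form with a partition bound `θ`.
-/

namespace Pool.Agent.Circ

open Finset Matrix

set_option linter.unusedSectionVars false

variable {V E : Type*} [Fintype V] [DecidableEq V] [Fintype E] [DecidableEq E]

/-- M1c with the determinant lower bound (M1b) as a hypothesis. -/
theorem exists_weights_theta_of (s t : E → V) (θ : ℝ)
    (hθ : ∀ p : V → ℕ, ((univ.image p).card : ℝ) - 1 ≤
      θ * ((univ.filter (fun e => p (s e) ≠ p (t e))).card : ℝ))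
    (hlow : ∀ (c : E → ℝ), (∀ e, 0 < c e) → (∀ e, c e ≤ 1) → ∀ v0 : V,
      θ * ∑ e, Real.log (c e) ≤ Real.log (lapl s t c {v0}).det)
    (x : ℝ) (hx : θ < x) :
    ∃ c : E → ℝ, (∀ e, 0 < c e) ∧
      ∀ (y : V → ℝ) (e : E), c e * (y (s e) - y (t e)) ^ 2 ≤ x * Q s t c y := by
  -- a nontrivial cut gives `1 ≤ θ * #cut`
  have hcutθ : ∀ X : Finset V, X.Nonempty → X ≠ univ → (1:ℝ) ≤ θ * (cut s t X).card := by
    intro X hX hXu
    have h := hθ (fun v => if v ∈ X then 1 else 0)
    have himg : (univ.image (fun v : V => if v ∈ X then 1 else 0)) = ({0, 1} : Finset ℕ) := by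
      obtain ⟨a, ha⟩ := hX
      obtain ⟨b, hb⟩ : ∃ b, b ∉ X := by
        by_contra hcon
        push Not at hcon
        exact hXu (Finset.eq_univ_of_forall hcon)
      ext j
      simp only [mem_image, mem_univ, true_and, mem_insert, mem_singleton]
      constructor
      · rintro ⟨v, rfl⟩
        by_cases hv : v ∈ X <;> simp [hv]
      · rintro (rfl | rfl)
        · exact ⟨b, by simp [hb]⟩
        · exact ⟨a, by simp [ha]⟩
    have hfil : (univ.filter (fun e => (if s e ∈ X then 1 else 0) ≠ (if t e ∈ X then 1 else 0))) =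
        cut s t X := by
      unfold cut
      refine Finset.filter_congr fun e _ => ?_
      by_cases h1 : s e ∈ X <;> by_cases h2 : t e ∈ X <;> simp [h1, h2]
    rw [himg] at h
    rw [hfil] at h
    norm_num at h
    linarith
  by_cases hsub : ∀ u v : V, u = v
  · refine ⟨fun _ => 1, fun _ => one_pos, fun y e => ?_⟩
    have hQ : Q s t (fun _ => 1) y = 0 := by
      unfold Q
      refine Finset.sum_eq_zero fun e' _ => ?_
      rw [hsub (s e') (t e')]; ring
    rw [hQ, hsub (s e) (t e)]; simp
  · push Not at hsub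
    obtain ⟨u0, v0, hne⟩ := hsub
    have hθ0 : 0 ≤ θ := by
      have h1 := hcutθ {u0} ⟨u0, by simp⟩ (fun h => hne (by
        have : v0 ∈ ({u0} : Finset V) := h ▸ mem_univ v0
        exact (Finset.mem_singleton.1 this).symm))
      by_contra hneg
      push Not at hneg
      have : θ * ((cut s t {u0}).card : ℝ) ≤ 0 :=
        mul_nonpos_of_nonpos_of_nonneg hneg.le (Nat.cast_nonneg _)
      linarith
    refine exists_weights_of s t θ hθ0 ?_ v0 (fun c h0 h1 => hlow c h0 h1 v0) x hx
    intro X hX hXu
    have h1 := hcutθ X hX hXu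
    by_contra hemp
    rw [Finset.not_nonempty_iff_eq_empty] at hemp
    rw [hemp] at h1
    norm_num at h1

end Pool.Agent.Circ
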