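import Mathlib
import Pool.Agent.Work.MP_974d84_co_circ.Det
import Pool.Agent.Work.MP_974d84_co_circ.Weights

/-!
M1: weights with all leverages at most `x` (assembly of Det and Weights).
-/

namespace Pool.Agent.Circ

open Finset Matrix

set_option linter.unusedSectionVars false

variable {V E : Type*} [Fintype V] [DecidableEq V] [Fintype E] [DecidableEq E]

/-- M1c = M1 : weights with all leverages at most `x`. -/
theorem exists_weights_theta (s t : E → V) (θ : ℝ)
    (hθ : ∀ p : V → ℕ, ((univ.image p).card : ℝ) - 1 ≤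
      θ * ((univ.filter (fun e => p (s e) ≠ p (t e))).card : ℝ))
    (x : ℝ) (hx : θ < x) :
    ∃ c : E → ℝ, (∀ e, 0 < c e) ∧
      ∀ (y : V → ℝ) (e : E), c e * (y (s e) - y (t e)) ^ 2 ≤ x * Q s t c y := by
  by_cases hV : 1 < Fintype.card V
  · exact exists_weights_theta_of s t θ hθ
      (fun c h0 h1 v0 => det_lower_theta' s t θ hV hθ c h0 h1 v0) x hx
  · have hsub : ∀ u v : V, u = v := fun u v =>
      (Fintype.card_le_one_iff.mp (by omega : Fintype.card V ≤ 1)) u v
    refine ⟨fun _ => 1, fun _ => one_pos, fun y e => ?_⟩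
    have hQ : Q s t (fun _ => 1) y = 0 := by
      unfold Q
      refine Finset.sum_eq_zero fun e' _ => ?_
      rw [hsub (s e') (t e')]; ring
    rw [hQ, hsub (s e) (t e)]; simp

end Pool.Agent.Circ
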