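import Mathlib
import Pool.Agent.Work.MP_974d84_co_circ.Defs
import Pool.Agent.Work.MP_974d84_co_circ.Rounding

/-!
From fractional vectors of the right parity to a circulation (limit argument).
-/

namespace Pool.Agent.Circ

open Finset

variable {V E : Type*} [Fintype V] [DecidableEq V] [Fintype E] [DecidableEq E]

omit [DecidableEq E] in
theorem dv_sub (s t : E → V) (f g : E → ℝ) (v : V) :
    dv s t (fun e => f e - g e) v = dv s t f v - dv s t g v := by
  unfold dv
  rw [← sum_sub_distrib]
  apply sum_congr rfl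
  intro e _
  split_ifs <;> ring

omit [DecidableEq E] in
theorem dv_continuous (s t : E → V) (v : V) : Continuous (fun f : E → ℝ => dv s t f v) := by
  unfold dv
  apply continuous_finset_sum
  intro e _
  apply Continuous.sub
  · split_ifs
    · exact continuous_apply e
    · exact continuous_const
  · split_ifs
    · exact continuous_apply e
    · exact continuous_const

/-- The limit argument. -/
theorem main_of (s t : E → V) (x0 : ℝ) (hx1 : x0 < 1)
    (H : ∀ x : ℝ, x0 < x → ∃ (z : E → ℝ) (q : V → ℤ), (∀ e, |z e| ≤ x) ∧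
      ∀ v, dv s t z v = dv s t (fun _ => 1) v + 2 * q v) :
    ∃ f : E → ℝ, (∀ v, dv s t f v = 0) ∧ ∀ e, 1 - x0 ≤ |f e| ∧ |f e| ≤ 1 + x0 := by
  classical
  have step : ∀ m : ℕ, ∃ f : E → ℝ, (∀ v, dv s t f v = 0) ∧
      ∀ e, 1 - (x0 + (1 - x0) / (m + 1)) ≤ |f e| ∧ |f e| ≤ 1 + (x0 + (1 - x0) / (m + 1)) := by
    intro m
    have hpos : 0 < (1 - x0) / ((m : ℝ) + 1) := by
      apply div_pos (by linarith) (by positivity)
    have hle : (1 - x0) / ((m : ℝ) + 1) ≤ 1 - x0 := by
      apply div_le_self (by linarith)
      have : (0:ℝ) ≤ m := Nat.cast_nonneg m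
      linarith
    obtain ⟨z, q, hz, hq⟩ := H (x0 + (1 - x0) / (m + 1)) (by linarith)
    obtain ⟨o, ho, hdo⟩ := rounding s t z (fun e => (hz e).trans (by linarith)) q hq
    refine ⟨fun e => o e - z e, ?_, ?_⟩
    · intro v
      rw [dv_sub, hdo, sub_self]
    · intro e
      have h1 := abs_le.mp (hz e)
      dsimp only
      constructor
      · rcases ho e with h | h
        · rw [h]
          refine le_trans ?_ (le_abs_self _)
          linarith [h1.2]
        · rw [h]
          refine le_trans ?_ (neg_le_abs _)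
          linarith [h1.1]
      · rcases ho e with h | h
        · rw [h]; apply abs_le.mpr; constructor <;> linarith [h1.1, h1.2]
        · rw [h]; apply abs_le.mpr; constructor <;> linarith [h1.1, h1.2]
  choose F hF0 hF using step
  have hb : ∀ m, F m ∈ Set.pi Set.univ (fun _ : E => Set.Icc (-2 : ℝ) 2) := by
    intro m e _
    have h1 := (hF m e).2
    have hle : (1 - x0) / ((m : ℝ) + 1) ≤ 1 - x0 := by
      apply div_le_self (by linarith)
      have : (0:ℝ) ≤ m := Nat.cast_nonneg m
      linarith
    exact abs_le.mp (h1.trans (by linarith))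
  obtain ⟨f, _, φ, hφ, hlim⟩ := (isCompact_univ_pi (fun _ : E => isCompact_Icc)).tendsto_subseq hb
  have hx : Filter.Tendsto (fun m : ℕ => x0 + (1 - x0) / ((φ m : ℝ) + 1)) Filter.atTop (nhds x0) := by
    have h1 : Filter.Tendsto (fun m : ℕ => (1 - x0) / ((m : ℝ) + 1)) Filter.atTop (nhds 0) := by
      have := (tendsto_one_div_add_atTop_nhds_zero_nat (𝕜 := ℝ)).const_mul (1 - x0)
      simp only [mul_zero] at this
      refine this.congr (fun m => ?_)
      ring
    have h2 := (h1.comp hφ.tendsto_atTop).const_add x0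
    simpa using h2
  refine ⟨f, ?_, ?_⟩
  · intro v
    have h1 : Filter.Tendsto (fun m => dv s t (F (φ m)) v) Filter.atTop (nhds (dv s t f v)) :=
      ((dv_continuous s t v).tendsto f).comp hlim
    have h2 : (fun m => dv s t (F (φ m)) v) = fun _ => (0:ℝ) := by
      funext m; exact hF0 _ _
    rw [h2] at h1
    exact (tendsto_nhds_unique h1 tendsto_const_nhds)
  · intro e
    have h1 : Filter.Tendsto (fun m => |F (φ m) e|) Filter.atTop (nhds |f e|) :=
      (((continuous_apply e).abs).tendsto f).comp hlim
    constructor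
    · refine le_of_tendsto_of_tendsto' (hx.const_sub 1) h1 (fun m => (hF (φ m) e).1)
    · refine le_of_tendsto_of_tendsto' h1 (hx.const_add 1) (fun m => (hF (φ m) e).2)

end Pool.Agent.Circ
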