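import Mathlib
import Pool.Agent.Work.MP_974d84_co_circ.Defs

/-!
The partition bound `θ` for `k`-edge-connected graphs.
-/

namespace Pool.Agent.Circ

open Finset

variable {V E : Type*} [Fintype V] [DecidableEq V] [Fintype E] [DecidableEq E]

omit [DecidableEq E] in
theorem sum_card_cut (s t : E → V) (p : V → ℕ) :
    ∑ i ∈ univ.image p, (cut s t (univ.filter (fun v => p v = i))).card
      = 2 * (univ.filter (fun e => p (s e) ≠ p (t e))).card := by
  simp only [cut, card_filter, mul_sum]
  rw [sum_comm]
  apply sum_congr rfl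
  intro e _
  simp only [mem_filter, mem_univ, true_and]
  have h1 : p (s e) ∈ univ.image p := mem_image_of_mem _ (mem_univ _)
  have h2 : p (t e) ∈ univ.image p := mem_image_of_mem _ (mem_univ _)
  by_cases h : p (s e) = p (t e)
  · simp [h]
  · have h3 : ∀ i ∈ univ.image p, (if ¬ (p (s e) = i ↔ p (t e) = i) then 1 else 0)
        = (if p (s e) = i then 1 else 0) + (if p (t e) = i then 1 else 0) := by
      intro i _
      by_cases h4 : p (s e) = i <;> by_cases h5 : p (t e) = i
      · exact absurd (h4.trans h5.symm) h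
      · simp [h4, h5]
      · simp [h4, h5]
      · simp [h4, h5]
    rw [sum_congr rfl h3, sum_add_distrib, sum_ite_eq, sum_ite_eq, if_pos h1, if_pos h2]
    simp [h]

omit [DecidableEq E] in
/-- The value of `θ` for `k`-edge-connected graphs. -/
theorem theta_of_cut (s t : E → V) (k : ℕ) (hk : 1 ≤ k)
    (hcut : ∀ X : Finset V, X.Nonempty → X ≠ univ → k ≤ (cut s t X).card) (p : V → ℕ) :
    ((univ.image p).card : ℝ) - 1 ≤ (2 / k * (1 - 1 / Fintype.card V) : ℝ) *
      ((univ.filter (fun e => p (s e) ≠ p (t e))).card : ℝ) := by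
  set T := (univ.image p).card with hT
  set m := (univ.filter (fun e => p (s e) ≠ p (t e))).card with hm
  have hTn : T ≤ Fintype.card V := card_image_le
  have hkR : (1:ℝ) ≤ k := by exact_mod_cast hk
  have hth : (0:ℝ) ≤ 2 / k * (1 - 1 / Fintype.card V) := by
    apply mul_nonneg (by positivity)
    rcases Nat.eq_zero_or_pos (Fintype.card V) with h0 | h0
    · simp [h0]
    · have : (1:ℝ) ≤ Fintype.card V := by exact_mod_cast h0
      have : 1 / (Fintype.card V : ℝ) ≤ 1 := by
        rw [div_le_one (by linarith)]; exact this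
      linarith
  by_cases h2 : T ≤ 1
  · have h3 : (T:ℝ) ≤ 1 := by exact_mod_cast h2
    have : (0:ℝ) ≤ (2 / k * (1 - 1 / Fintype.card V) : ℝ) * m := mul_nonneg hth (Nat.cast_nonneg _)
    linarith
  · push Not at h2
    have key : k * T ≤ 2 * m := by
      rw [hm, ← sum_card_cut, hT, mul_comm, ← smul_eq_mul]
      apply card_nsmul_le_sum
      intro i hi
      obtain ⟨v, _, hv⟩ := mem_image.mp hi
      apply hcut
      · exact ⟨v, by simp [hv]⟩
      · intro huniv
        have h3 : (univ.image p) ⊆ {i} := by
          intro j hj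
          obtain ⟨u, _, hu⟩ := mem_image.mp hj
          have : u ∈ univ.filter (fun v => p v = i) := by rw [huniv]; exact mem_univ _
          rw [mem_filter] at this
          rw [mem_singleton, ← hu]; exact this.2
        have := card_le_card h3
        rw [card_singleton] at this
        omega
    have keyR : (k:ℝ) * T ≤ 2 * m := by exact_mod_cast key
    have hTR : (2:ℝ) ≤ T := by exact_mod_cast h2
    have hnR : (T:ℝ) ≤ Fintype.card V := by exact_mod_cast hTn
    have hn0 : (0:ℝ) < Fintype.card V := by linarith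
    have e1 : (T:ℝ) * (1 - 1 / Fintype.card V) ≤ (2 / k * (1 - 1 / Fintype.card V) : ℝ) * m := by
      have h5 : (T:ℝ) ≤ 2 / k * m := by
        rw [div_mul_eq_mul_div, le_div_iff₀ (by linarith)]
        linarith
      have h6 : (0:ℝ) ≤ 1 - 1 / Fintype.card V := by
        have : 1 / (Fintype.card V : ℝ) ≤ 1 := by
          rw [div_le_one hn0]; linarith
        linarith
      calc (T:ℝ) * (1 - 1 / Fintype.card V) ≤ (2 / k * m) * (1 - 1 / Fintype.card V) :=
            mul_le_mul_of_nonneg_right h5 h6
        _ = _ := by ring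
    have e2 : (T:ℝ) - 1 ≤ (T:ℝ) * (1 - 1 / Fintype.card V) := by
      have : (T:ℝ) * (1 / Fintype.card V) ≤ 1 := by
        rw [mul_one_div, div_le_one hn0]; exact hnR
      nlinarith
    linarith

end Pool.Agent.Circ
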