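import Mathlib
import Pool.Agent.Work.MP_974d84_co_circ.Weights
import Pool.Agent.Work.MP_974d84_co_circ.Lattice
import Pool.Agent.Work.MP_974d84_co_circ.Main0
import Pool.Agent.Work.MP_974d84_co_circ.Theta
import Pool.Agent.Work.MP_974d84_co_circ.Bridgeless
import Pool.Agent.Work.MP_974d84_co_circ.IntFlow

/-!
Assembly, with the determinant bound (M1b) as a hypothesis.
-/

namespace Pool.Agent.Circ

open Finset

universe u w

/-- The determinant bound M1b as a hypothesis. -/
def DetLower : Prop := ∀ (V : Type u) (E : Type w) [Fintype V] [DecidableEq V] [Fintype E]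
    [DecidableEq E] (s t : E → V) (θ : ℝ)
    (_ : ∀ p : V → ℕ, ((univ.image p).card : ℝ) - 1 ≤
      θ * ((univ.filter (fun e => p (s e) ≠ p (t e))).card : ℝ))
    (c : E → ℝ), (∀ e, 0 < c e) → (∀ e, c e ≤ 1) → ∀ v0 : V,
    θ * ∑ e, Real.log (c e) ≤ Real.log (lapl s t c {v0}).det

variable {V : Type u} {E : Type w} [Fintype V] [DecidableEq V] [Fintype E] [DecidableEq E]

/-- The main theorem, general form. -/
theorem main_theta_of (HD : DetLower.{u, w}) (s t : E → V) (θ : ℝ) (hθ0 : 0 ≤ θ) (hθ1 : θ < 1)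
    (hθ : ∀ p : V → ℕ, ((univ.image p).card : ℝ) - 1 ≤
      θ * ((univ.filter (fun e => p (s e) ≠ p (t e))).card : ℝ)) :
    ∃ f : E → ℝ, (∀ v, dv s t f v = 0) ∧ ∀ e, 1 - θ ≤ |f e| ∧ |f e| ≤ 1 + θ := by
  apply main_of s t θ hθ1
  intro x hx
  obtain ⟨c, hc, hcx⟩ := exists_weights_theta_of s t θ hθ
    (fun c h0 h1 v0 => HD V E s t θ hθ c h0 h1 v0) x hx
  exact exists_lattice s t c hc x (le_trans hθ0 hx.le) hcx

/-- The main theorem for `k`-edge-connected graphs. -/
theorem mainStatement_of (HD : DetLower.{u, w}) : MainStatement.{u, w} := by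
  intro V E _ _ _ _ s t k hk hn hcut
  have hkR : (2:ℝ) ≤ k := by exact_mod_cast hk
  have hnR : (2:ℝ) ≤ Fintype.card V := by exact_mod_cast hn
  have h1 : (1:ℝ) / Fintype.card V ≤ 1 / 2 := by
    apply one_div_le_one_div_of_le (by norm_num) hnR
  have h2 : (0:ℝ) < 1 / Fintype.card V := by positivity
  have h3 : (2:ℝ) / k ≤ 1 := by rw [div_le_one (by linarith)]; exact hkR
  have h4 : (0:ℝ) < 2 / k := by positivity
  apply main_theta_of HD s t
  · apply mul_nonneg h4.le; linarith
  · calc (2:ℝ) / k * (1 - 1 / Fintype.card V) ≤ 1 * (1 - 1 / Fintype.card V) := by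
          apply mul_le_mul_of_nonneg_right h3; linarith
      _ < 1 := by linarith
  · exact theta_of_cut s t k (by omega) hcut

/-- Circular flows from the partition bound: real and integral version. -/
theorem circular_of (HD : DetLower.{u, w}) (s t : E → V) (r : ℝ) (hr : 2 ≤ r)
    (h : ∀ p : V → ℕ, r * (((univ.image p).card : ℝ) - 1) ≤
      (r - 2) * ((univ.filter (fun e => p (s e) ≠ p (t e))).card : ℝ)) :
    ∃ f : E → ℝ, (∀ v, dv s t f v = 0) ∧ ∀ e, 1 ≤ |f e| ∧ |f e| ≤ r - 1 := by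
  have hr0 : 0 < r := by linarith
  obtain ⟨f, hf, hb⟩ := main_theta_of HD s t ((r - 2) / r) (div_nonneg (by linarith) hr0.le)
    (by rw [div_lt_one hr0]; linarith) (by
      intro p
      have := h p
      rw [div_mul_eq_mul_div, le_div_iff₀ hr0]
      linarith)
  refine ⟨fun e => r / 2 * f e, ?_, ?_⟩
  · intro v
    have := dv_smul s t f (r / 2) v
    rw [this, hf v, mul_zero]
  · intro e
    rw [abs_mul, abs_of_pos (by positivity : (0:ℝ) < r / 2)]
    have e1 : 1 - (r - 2) / r = 2 / r := by field_simp; ring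
    have e2 : 1 + (r - 2) / r = 2 * (r - 1) / r := by field_simp; ring
    have h1 := (hb e).1
    have h2 := (hb e).2
    rw [e1] at h1
    rw [e2] at h2
    constructor
    · calc (1:ℝ) = r / 2 * (2 / r) := by field_simp
        _ ≤ r / 2 * |f e| := by apply mul_le_mul_of_nonneg_left h1; positivity
    · calc r / 2 * |f e| ≤ r / 2 * (2 * (r - 1) / r) := by
            apply mul_le_mul_of_nonneg_left h2; positivity
        _ = r - 1 := by field_simp

/-- Nowhere-zero integer flows from the partition bound. -/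
theorem nowhereZero_of (HD : DetLower.{u, w}) (s t : E → V) (r : ℕ) (hr : 2 ≤ r)
    (h : ∀ p : V → ℕ, (r:ℝ) * (((univ.image p).card : ℝ) - 1) ≤
      (r - 2) * ((univ.filter (fun e => p (s e) ≠ p (t e))).card : ℝ)) :
    ∃ g : E → ℤ, (∀ v, ∑ e, ((if s e = v then g e else 0) - (if t e = v then g e else 0)) = 0) ∧
      ∀ e, 1 ≤ |g e| ∧ |g e| ≤ r - 1 := by
  obtain ⟨f, hf, hb⟩ := circular_of HD s t r (by exact_mod_cast hr) h
  obtain ⟨g, hg, hgb⟩ := int_of_real s t f hf 1 (r - 1) (by
    intro e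
    rw [Nat.cast_sub (by omega)]
    simpa using hb e)
  refine ⟨g, hg, fun e => ?_⟩
  have := hgb e
  rw [Nat.cast_sub (by omega)] at this
  simpa using this

end Pool.Agent.Circ
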